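import Pool.Agent.Lib.MP_9f7b43_nt.O.Spec

namespace MP9f7b43.O

open C31 MP9f7b43.L

theorem tAbv : AbvStmt := by
  intro L M _ _ i O
  obtain ⟨V, h, hloc⟩ := IsLocalRing.exists_factor_valuationRing (i.comp O.subtype)
  refine ⟨V, ⟨fun y => ⟨fun hy => ?_, fun hy => h ⟨y, hy⟩⟩⟩⟩
  by_contra hyO
  have hy0 : y ≠ 0 := by
    rintro rfl
    exact hyO O.zero_mem
  have hinv : y⁻¹ ∈ O := (O.mem_or_inv_mem y).resolve_left hyO
  have hu : IsUnit (⟨y⁻¹, hinv⟩ : O) := by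
    apply hloc.map_nonunit
    refine isUnit_iff_exists_inv.mpr ⟨⟨i y, hy⟩, ?_⟩
    apply Subtype.ext
    change i y⁻¹ * i y = 1
    rw [← map_mul, inv_mul_cancel₀ hy0, map_one]
  obtain ⟨⟨b, hb⟩, hb2⟩ := isUnit_iff_exists_inv.mp hu
  have h3 : y⁻¹ * b = 1 := congrArg Subtype.val hb2
  have h4 : b = y := by
    have := congrArg (fun t => y * t) h3
    simpa [mul_inv_cancel_left₀ hy0] using this
  exact hyO (h4 ▸ hb)

end MP9f7b43.O
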