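import Pool.Agent.Lib.MP_9f7b43_nt.O.Spec

/-!
# MP_9f7b43_nt, part O, module Aff: local analysis in the affine part
-/

namespace MP9f7b43.O

open C31 MP9f7b43.L Polynomial

private theorem aff_add {M : Type} [Field M] {V : ValuationSubring M} {a b : M}
    (ha : a ∈ V.nonunits) (hb : b ∈ V.nonunits) : a + b ∈ V.nonunits := by
  rw [ValuationSubring.mem_nonunits_iff] at *
  exact Valuation.map_add_lt _ ha hb

private theorem aff_mul_right {M : Type} [Field M] {V : ValuationSubring M} {a b : M}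
    (ha : a ∈ V.nonunits) (hb : b ∈ V) : a * b ∈ V.nonunits := by
  rw [ValuationSubring.mem_nonunits_iff] at *
  rw [← ValuationSubring.valuation_le_one_iff] at hb
  rw [map_mul]
  calc V.valuation a * V.valuation b ≤ V.valuation a * 1 := by gcongr
    _ < 1 := by rwa [mul_one]

private theorem aff_prime {M : Type} [Field M] {V : ValuationSubring M} {a b : M}
    (ha : a ∈ V) (hb : b ∈ V) (h : a * b ∈ V.nonunits) : a ∈ V.nonunits ∨ b ∈ V.nonunits := by
  by_contra hc
  rw [not_or] at hc
  simp only [ValuationSubring.mem_nonunits_iff, not_lt] at *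
  rw [← ValuationSubring.valuation_le_one_iff] at ha hb
  have h1 := le_antisymm ha hc.1
  have h2 := le_antisymm hb hc.2
  rw [map_mul, h1, h2, one_mul] at h
  exact lt_irrefl _ h

/-- **Aff.** -/
theorem tAff (hIde : IdeStmt) : AffStmt := by
  intro M _ V u v z w hw hF hwV hu hv hz hD
  obtain ⟨-, -, i3, -⟩ := hIde M u v z w hw hF hD
  have n1 : (1 : M) ∈ V := one_mem V
  have n2 : (2 : M) ∈ V := by exact_mod_cast natCast_mem V 2
  have n3 : (3 : M) ∈ V := by exact_mod_cast natCast_mem V 3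
  have hX : cX u v w ∈ V := by unfold cX; exact add_mem hu (mul_mem hv hwV)
  have hX' : cX' u v w ∈ V := by unfold cX'; exact sub_mem (sub_mem hu hv) (mul_mem hv hwV)
  have hp : vp w ∈ V := by unfold vp; exact sub_mem (neg_mem n1) (mul_mem n3 hwV)
  have hq : vq w ∈ V := by unfold vq; exact add_mem n2 (mul_mem n3 hwV)
  refine ⟨?_, ?_⟩
  · intro hy0 hy hs
    have h1 : (cs u v z w * (cy u v z w)⁻¹) * cX u v w + (cy u v z w)⁻¹ * cX' u v w = 1 := by
      have h2 : cy u v z w = cs u v z w * cX u v w + cX' u v w := rfl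
      calc (cs u v z w * (cy u v z w)⁻¹) * cX u v w + (cy u v z w)⁻¹ * cX' u v w
          = (cy u v z w)⁻¹ * (cs u v z w * cX u v w + cX' u v w) := by ring
        _ = 1 := by rw [← h2, inv_mul_cancel₀ hy0]
    have h3 := aff_add (aff_mul_right hs hX) (aff_mul_right hy hX')
    rw [h1, ValuationSubring.mem_nonunits_iff, map_one] at h3
    exact lt_irrefl _ h3
  · intro hs hy hW
    set s := cs u v z w with hsdef
    set y := cy u v z w with hydef
    have hc : w ^ 2 * y ^ 2 + vq w * s ^ 2 * y + 14 * (1 + 2 * w) * s ∈ V.nonunits := by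
      rw [← i3]; exact aff_mul_right hW hX
    have hab : vp w * vq w = 7 := by
      unfold vp vq; linear_combination (-9) * hw
    have key : (vq w * s ^ 3 - vp w) * (vq w * s ^ 3 + w * vp w)
        = (w ^ 2 * y ^ 2 + vq w * s ^ 2 * y + 14 * (1 + 2 * w) * s) * (-(w ^ 2 * s ^ 2))
          + cW w s y * (-(w ^ 2 * (w ^ 2 * (vp w + vq w * s ^ 3 + s * y) + vq w * s ^ 3))) := by
      have h1 : w ^ 3 = 1 := by linear_combination (w - 1) * hw
      have h2 : s ^ 2 * (w ^ 2 * y ^ 2 + vq w * s ^ 2 * y + 14 * (1 + 2 * w) * s)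
          = -w * (vq w * s ^ 3 - vp w) * (vq w * s ^ 3 + w * vp w)
            - cW w s y * (w ^ 2 * (vp w + vq w * s ^ 3 + s * y) + vq w * s ^ 3) := by
        unfold cW
        generalize vp w = a at hab ⊢
        generalize vq w = b at hab ⊢
        linear_combination (b ^ 2 * s ^ 6 + 21 * s ^ 3) * hw + (3 * w ^ 2 - w + 1) * s ^ 3 * hab
      linear_combination (w ^ 2) * h2
        - (vq w * s ^ 3 - vp w) * (vq w * s ^ 3 + w * vp w) * h1
    have hsV : s ^ 2 ∈ V := pow_mem hs 2
    have hmem : (vq w * s ^ 3 - vp w) * (vq w * s ^ 3 + w * vp w) ∈ V.nonunits := by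
      rw [key]
      refine aff_add (aff_mul_right hc (neg_mem (mul_mem (pow_mem hwV 2) hsV)))
        (aff_mul_right hW (neg_mem (mul_mem (pow_mem hwV 2) ?_)))
      exact add_mem (mul_mem (pow_mem hwV 2) (add_mem (add_mem hp (mul_mem hq (pow_mem hs 3)))
        (mul_mem hs hy))) (mul_mem hq (pow_mem hs 3))
    exact aff_prime (sub_mem (mul_mem hq (pow_mem hs 3)) hp)
      (add_mem (mul_mem hq (pow_mem hs 3)) (mul_mem hwV hp)) hmem

end MP9f7b43.O
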