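import Pool.Agent.Lib.MP_9f7b43_nt.O.Ide

/-!
# MP_9f7b43_nt, part O, module Bas: the base points
-/

namespace MP9f7b43.O

open C31 MP9f7b43.L

theorem tBas : BasStmt := by
  intro M _ u v z w hw hF hD hW
  obtain ⟨-, -, h3, -⟩ := tIde M u v z w hw hF hD
  rw [hW, zero_mul] at h3
  have hw0 : w ≠ 0 := by
    rintro rfl
    norm_num at hw
  set s := cs u v z w
  set y := cy u v z w
  have hW' : vp w + vq w * s ^ 3 - s * y = 0 := hW
  have key : w * ((vq w * s ^ 3 - vp w) * (vq w * s ^ 3 + w * vp w)) = 0 := by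
    have e : w * ((vq w * s ^ 3 - vp w) * (vq w * s ^ 3 + w * vp w)) =
        -(s ^ 2 * (w ^ 2 * y ^ 2 + vq w * s ^ 2 * y + 14 * (1 + 2 * w) * s))
        + (w ^ 2 * (s * y) ^ 2 + vq w * s ^ 3 * (s * y) + 14 * (1 + 2 * w) * s ^ 3
          + w * ((vq w * s ^ 3 - vp w) * (vq w * s ^ 3 + w * vp w))) := by ring
    rw [e, ← h3]
    have hsy : s * y = vp w + vq w * s ^ 3 := by linear_combination -hW'
    rw [hsy]
    unfold vp vq
    linear_combination ((9)*w^2*s^6 + (-27)*w^2*s^3 + (12)*w*s^6 + (9)*w*s^3 + (4)*s^6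
      + (12)*s^3) * hw
  have := (mul_eq_zero.mp key).resolve_left hw0
  rcases mul_eq_zero.mp this with h | h
  · exact Or.inl h
  · exact Or.inr h

end MP9f7b43.O
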