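import Pool.Agent.Lib.MP_9f7b43_nt.O.Spec

/-!
# MP_9f7b43_nt, part O: the count of irreducible factors
-/

namespace MP9f7b43.O

open C31 MP9f7b43.L Polynomial

/-- The invariant. -/
private noncomputable def cnt_d {E : Type} [Field E] (v : E → ℤ) (P : Polynomial E) : ℤ :=
  3 * v (P.coeff 0) - 3 * v P.leadingCoeff - P.natDegree

private theorem cnt_mul {E : Type} [Field E] (v : E → ℤ)
    (hv : ∀ a b, a ≠ 0 → b ≠ 0 → v (a * b) = v a + v b) (P Q : Polynomial E)
    (hP : P.coeff 0 ≠ 0) (hQ : Q.coeff 0 ≠ 0) : cnt_d v (P * Q) = cnt_d v P + cnt_d v Q := by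
  have hP0 : P ≠ 0 := by
    intro h
    rw [h, coeff_zero] at hP
    exact hP rfl
  have hQ0 : Q ≠ 0 := by
    intro h
    rw [h, coeff_zero] at hQ
    exact hQ rfl
  unfold cnt_d
  rw [mul_coeff_zero, leadingCoeff_mul, natDegree_mul hP0 hQ0, hv _ _ hP hQ,
    hv _ _ (leadingCoeff_ne_zero.2 hP0) (leadingCoeff_ne_zero.2 hQ0)]
  push_cast
  ring

private theorem cnt_unit {E : Type} [Field E] (v : E → ℤ) (u : Polynomial E) (hu : IsUnit u) :
    cnt_d v u = 0 ∧ u.coeff 0 ≠ 0 := by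
  obtain ⟨c, hc, rfl⟩ := Polynomial.isUnit_iff.1 hu
  unfold cnt_d
  rw [coeff_C_zero, leadingCoeff_C, natDegree_C]
  exact ⟨by simp, hc.ne_zero⟩

theorem tCnt : CntStmt := by
  intro E _ v Φ μ hv hμ hμ2 hμΦ hΦ0 hfac
  have hdiv0 : ∀ P : Polynomial E, P ∣ Φ → P.coeff 0 ≠ 0 := by
    rintro P ⟨Q, hQ⟩ h
    rw [hQ, mul_coeff_zero, h, zero_mul] at hΦ0
    exact hΦ0 rfl
  have hμ1 : 1 ≤ μ.natDegree := hμ.natDegree_pos
  have hμd : cnt_d v μ ≠ 0 := by
    unfold cnt_d
    omega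
  have hfac' : ∀ g : Polynomial E, Irreducible g → g ∣ Φ →
      (Associated g μ ∧ cnt_d v g = cnt_d v μ) ∨ cnt_d v g = 0 := by
    intro g hg hgΦ
    rcases hfac g hg hgΦ with h | h
    · left
      refine ⟨h, ?_⟩
      obtain ⟨u, hu⟩ := h
      obtain ⟨h1, h2⟩ := cnt_unit v (u : Polynomial E) u.isUnit
      rw [← hu, cnt_mul v hv _ _ (hdiv0 g hgΦ) h2, h1, add_zero]
    · right
      unfold cnt_d
      omega
  have main : ∀ P : Polynomial E, P ∣ Φ → ∃ n : ℕ, cnt_d v P = n * cnt_d v μ ∧ (μ ∣ P → 1 ≤ n) := by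
    intro P
    induction P using WfDvdMonoid.induction_on_irreducible with
    | zero =>
      intro h
      exact absurd (coeff_zero 0) (hdiv0 0 h)
    | unit u hu =>
      intro _
      refine ⟨0, by rw [(cnt_unit v u hu).1]; simp, fun h => ?_⟩
      exact absurd (isUnit_of_dvd_unit h hu) hμ.not_isUnit
    | mul a i ha hi ih =>
      intro h
      have hi' : i ∣ Φ := (dvd_mul_right i a).trans h
      have ha' : a ∣ Φ := (dvd_mul_left a i).trans h
      obtain ⟨n, hn, hn1⟩ := ih ha'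
      have hm := cnt_mul v hv i a (hdiv0 i hi') (hdiv0 a ha')
      rcases hfac' i hi hi' with ⟨-, h1⟩ | h1
      · refine ⟨n + 1, ?_, fun _ => Nat.le_add_left _ _⟩
        rw [hm, h1, hn]
        push_cast
        ring
      · refine ⟨n, by rw [hm, h1, hn, zero_add], fun h2 => ?_⟩
        rcases hμ.prime.dvd_or_dvd h2 with h3 | h3
        · exfalso
          have h4 : Associated μ i := hμ.associated_of_dvd hi h3
          obtain ⟨u, hu⟩ := h4
          obtain ⟨h5, h6⟩ := cnt_unit v (u : Polynomial E) u.isUnit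
          rw [← hu, cnt_mul v hv _ _ (hdiv0 μ hμΦ) h6, h5, add_zero] at h1
          exact hμd h1
        · exact hn1 h3
  intro hcon
  obtain ⟨n, hn, hn1⟩ := main Φ dvd_rfl
  have h1 : cnt_d v Φ = 0 := by
    unfold cnt_d
    omega
  rw [h1] at hn
  rcases mul_eq_zero.1 hn.symm with h2 | h2
  · have := hn1 hμΦ
    have h3 : n = 0 := by exact_mod_cast h2
    omega
  · exact hμd h2

end MP9f7b43.O
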