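import Pool.Agent.Lib.MP_9f7b43_nt.O.Spec

/-!
# MP_9f7b43_nt, part O: minimal polynomials of degree at most `2`
-/

namespace MP9f7b43.O

open C31 MP9f7b43.L Polynomial

/-- The constants of `S6`. -/
private def deg_c (k : Type) [Field k] : k →+* S6 k := Cub.C.comp Eis.C

private theorem deg_sum {k : Type} [Field k] (ξ : S6 k) :
    ξ = (deg_c k ξ.a0.re + deg_c k ξ.a0.im * S6.om k) +
      (deg_c k ξ.a1.re + deg_c k ξ.a1.im * S6.om k) * Cub.rho (Eis k) +
      (deg_c k ξ.a2.re + deg_c k ξ.a2.im * S6.om k) * Cub.rho (Eis k) ^ 2 := by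
  have h := Cub.eq_sum ξ
  have h0 : Cub.C ξ.a0 = deg_c k ξ.a0.re + deg_c k ξ.a0.im * S6.om k := by
    conv_lhs => rw [Eis.eq_sum ξ.a0]
    rw [map_add, map_mul]
    rfl
  have h1 : Cub.C ξ.a1 = deg_c k ξ.a1.re + deg_c k ξ.a1.im * S6.om k := by
    conv_lhs => rw [Eis.eq_sum ξ.a1]
    rw [map_add, map_mul]
    rfl
  have h2 : Cub.C ξ.a2 = deg_c k ξ.a2.re + deg_c k ξ.a2.im * S6.om k := by
    conv_lhs => rw [Eis.eq_sum ξ.a2]
    rw [map_add, map_mul]
    rfl
  rw [← h0, ← h1, ← h2]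
  exact h

private theorem deg_const {k : Type} [Field k] [Algebra ℚ k] (q : ℚ) :
    S6.map (algebraMap ℚ k) (deg_c ℚ q) = deg_c k (algebraMap ℚ k q) := by
  unfold deg_c S6.map
  ext <;> simp

theorem tDeg : DegStmt := by
  intro k _ _ hfd hfr E _ ε K _ κ θ
  set f : E →+* K := (κ : S6 k →+* K).comp ((S6.map (algebraMap ℚ k)).comp (ε : E →+* S6 ℚ)) with hf
  letI : Algebra E K := f.toAlgebra
  have hfe : ∀ η : S6 ℚ, algebraMap E K (ε.symm η) = κ (S6.map (algebraMap ℚ k) η) := by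
    intro η
    show κ (S6.map (algebraMap ℚ k) (ε (ε.symm η))) = _
    rw [RingEquiv.apply_symm_apply]
  let b := Module.finBasis ℚ k
  let g : Fin (Module.finrank ℚ k) → K := fun i => κ (deg_c k (b i))
  let N : Submodule E K := Submodule.span E (Set.range g)
  have hconst : ∀ q : k, κ (deg_c k q) ∈ N := by
    intro q
    have h1 : q = ∑ i, b.repr q i • b i := (b.sum_repr q).symm
    rw [h1, map_sum, map_sum]
    refine Submodule.sum_mem _ fun i _ => ?_
    rw [Algebra.smul_def, map_mul, map_mul, ← deg_const, ← hfe]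
    rw [← Algebra.smul_def]
    exact Submodule.smul_mem _ _ (Submodule.subset_span (Set.mem_range_self i))
  have hmul : ∀ (η : S6 ℚ) (y : K), y ∈ N → y * κ (S6.map (algebraMap ℚ k) η) ∈ N := by
    intro η y hy
    rw [← hfe, mul_comm, ← Algebra.smul_def]
    exact Submodule.smul_mem _ _ hy
  have htop : Submodule.span E (Set.range g) = ⊤ := by
    rw [eq_top_iff]
    intro y _
    obtain ⟨ξ, rfl⟩ := κ.surjective y
    rw [deg_sum ξ, ← S6.map_om (algebraMap ℚ k), ← S6.map_rho (algebraMap ℚ k), ← map_pow]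
    simp only [map_add, map_mul]
    have h1 : ∀ x y : k, κ (deg_c k x) + κ (deg_c k y) * κ (S6.map (algebraMap ℚ k) (S6.om ℚ)) ∈ N :=
      fun x y => Submodule.add_mem _ (hconst x) (hmul _ _ (hconst y))
    exact Submodule.add_mem _ (Submodule.add_mem _ (h1 _ _) (hmul _ _ (h1 _ _))) (hmul _ _ (h1 _ _))
  haveI : FiniteDimensional E K := ⟨by rw [← htop]; exact Submodule.fg_span (Set.finite_range g)⟩
  have hle : Module.finrank E K ≤ 2 := by
    have h1 := finrank_le_of_span_eq_top (R := E) htop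
    rw [Fintype.card_fin] at h1
    omega
  have hint : IsIntegral E θ := IsIntegral.of_finite E θ
  exact ⟨minpoly E θ, minpoly.irreducible hint, (minpoly.natDegree_le θ).trans hle, minpoly.aeval E θ⟩

end MP9f7b43.O
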