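import Pool.Agent.Lib.MP_9f7b43_nt.O.Spec
import Pool.Agent.Lib.MP_9f7b43_nt.Roots

namespace MP9f7b43.O

open C31 MP9f7b43.L

private noncomputable def Fld_w : ℂ := ⟨-1 / 2, Real.sqrt 3 / 2⟩

private theorem Fld_w_rel : Fld_w ^ 2 + Fld_w + 1 = 0 := by
  have h3 : Real.sqrt 3 * Real.sqrt 3 = 3 := Real.mul_self_sqrt (by norm_num)
  rw [sq Fld_w]
  apply Complex.ext
  · simp only [Fld_w, Complex.add_re, Complex.mul_re, Complex.one_re, Complex.zero_re]
    nlinarith
  · simp only [Fld_w, Complex.add_im, Complex.mul_im, Complex.one_im, Complex.zero_im]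
    ring

private theorem Fld_indep {k : Type} [Field k] (j : k →+* ℝ) (hk : ∀ x : k, x ^ 3 ≠ x + 1)
    (a b c : k) (h : j a + j b * r1 + j c * r1 ^ 2 = 0) : a = 0 ∧ b = 0 ∧ c = 0 := by
  letI : Algebra k ℝ := j.toAlgebra
  have hj : ∀ x, algebraMap k ℝ x = j x := fun _ => rfl
  have hm : (Polynomial.X ^ 3 - Polynomial.X - 1 : Polynomial k).Monic := by
    monicity!
  have hd : (Polynomial.X ^ 3 - Polynomial.X - 1 : Polynomial k).natDegree = 3 := by
    compute_degree!
  have hirr : Irreducible (Polynomial.X ^ 3 - Polynomial.X - 1 : Polynomial k) := by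
    rw [hm.irreducible_iff_roots_eq_zero_of_degree_le_three (by omega) (by omega)]
    rw [Multiset.eq_zero_iff_forall_notMem]
    intro r hr
    rw [Polynomial.mem_roots hm.ne_zero] at hr
    have : r ^ 3 - r - 1 = 0 := by simpa using hr
    exact hk r (by linear_combination this)
  have hmin : minpoly k r1 = Polynomial.X ^ 3 - Polynomial.X - 1 := by
    refine (minpoly.eq_of_irreducible_of_monic hirr ?_ hm).symm
    simp [r1_cube]
  have hq : Polynomial.aeval r1
      (Polynomial.C a + Polynomial.C b * Polynomial.X + Polynomial.C c * Polynomial.X ^ 2) = 0 := by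
    simpa [hj] using h
  have hdvd := minpoly.dvd k r1 hq
  rw [hmin] at hdvd
  have hz : Polynomial.C a + Polynomial.C b * Polynomial.X + Polynomial.C c * Polynomial.X ^ 2
      = 0 := by
    by_contra hne
    have h1 := Polynomial.natDegree_le_of_dvd hdvd hne
    have h2 : (Polynomial.C a + Polynomial.C b * Polynomial.X
        + Polynomial.C c * Polynomial.X ^ 2).natDegree ≤ 2 := by
      compute_degree
    omega
  have h0 := congrArg (fun p => Polynomial.coeff p 0) hz
  have h1 := congrArg (fun p => Polynomial.coeff p 1) hz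
  have h2 := congrArg (fun p => Polynomial.coeff p 2) hz
  simp [Polynomial.coeff_X] at h0 h1 h2
  exact ⟨h0, h1, h2⟩

private theorem Fld_inj {k : Type} [Field k] (j : k →+* ℝ) (hk : ∀ x : k, x ^ 3 ≠ x + 1) :
    Function.Injective (S6.ev (Complex.ofRealHom.comp j) (r1 : ℂ) Fld_w r1_cubeC Fld_w_rel) := by
  rw [injective_iff_map_eq_zero]
  intro ξ hξ
  rw [S6.ev_apply] at hξ
  have him := congrArg Complex.im hξ
  have hre := congrArg Complex.re hξ
  have hw : Fld_w.im ≠ 0 := by
    have : 0 < Real.sqrt 3 := Real.sqrt_pos.mpr (by norm_num)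
    simp only [Fld_w]
    positivity
  have hB : (j ξ.a0.im + j ξ.a1.im * r1 + j ξ.a2.im * r1 ^ 2) * Fld_w.im = 0 := by
    have e : ((r1 : ℂ) ^ 2) = ((r1 ^ 2 : ℝ) : ℂ) := by push_cast; rfl
    rw [e] at him
    simp only [RingHom.comp_apply, Complex.ofRealHom_eq_coe, Complex.add_im, Complex.mul_im,
      Complex.add_re, Complex.mul_re, Complex.ofReal_re, Complex.ofReal_im, Complex.zero_im] at him
    linear_combination him
  have hB' : j ξ.a0.im + j ξ.a1.im * r1 + j ξ.a2.im * r1 ^ 2 = 0 := by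
    rcases mul_eq_zero.mp hB with h | h
    · exact h
    · exact absurd h hw
  have hA' : j ξ.a0.re + j ξ.a1.re * r1 + j ξ.a2.re * r1 ^ 2 = 0 := by
    have e : ((r1 : ℂ) ^ 2) = ((r1 ^ 2 : ℝ) : ℂ) := by push_cast; rfl
    rw [e] at hre
    simp only [RingHom.comp_apply, Complex.ofRealHom_eq_coe, Complex.add_im, Complex.mul_im,
      Complex.add_re, Complex.mul_re, Complex.ofReal_re, Complex.ofReal_im, Complex.zero_re] at hre
    linear_combination hre - Fld_w.re * hB'
  obtain ⟨i0, i1, i2⟩ := Fld_indep j hk _ _ _ hB'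
  obtain ⟨s0, s1, s2⟩ := Fld_indep j hk _ _ _ hA'
  ext <;> simp [i0, i1, i2, s0, s1, s2]

theorem tFld : FldStmt := by
  intro k _ j hk
  have hdom : IsDomain (S6 k) := (Fld_inj j hk).isDomain
  letI : Algebra k (S6 k) := ((Cub.C (R := Eis k)).comp (Eis.C (R := k))).toAlgebra
  have hC : ∀ x : k, IsIntegral k (Cub.C (Eis.C x) : S6 k) := fun x =>
    isIntegral_algebraMap (R := k) (A := S6 k) (x := x)
  have hom : IsIntegral k (S6.om k) := by
    refine ⟨Polynomial.X ^ 2 + Polynomial.X + 1, by monicity!, ?_⟩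
    simp [S6.om_rel]
  have hrho : IsIntegral k (Cub.rho (Eis k)) := by
    refine ⟨Polynomial.X ^ 3 - Polynomial.X - 1, by monicity!, ?_⟩
    simp [Cub.rho_cube]
  have hE : ∀ x : Eis k, IsIntegral k (Cub.C x : S6 k) := by
    intro x
    rw [Eis.eq_sum x, map_add, map_mul]
    exact (hC _).add ((hC _).mul hom)
  have hint : Algebra.IsIntegral k (S6 k) := by
    refine ⟨fun x => ?_⟩
    rw [Cub.eq_sum x]
    exact ((hE _).add ((hE _).mul hrho)).add ((hE _).mul (hrho.pow 2))
  exact isField_of_isIntegral_of_isField' (Field.toIsField k)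

end MP9f7b43.O
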