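import Pool.Agent.Lib.MP_9f7b43_nt.O.Spec

/-!
# MP_9f7b43_nt, part O: elementary lemmas on the maximal ideal of a valuation subring
-/

namespace MP9f7b43.O

open C31 MP9f7b43.L Polynomial

section nu

variable {M : Type} [Field M] (V : ValuationSubring M)

theorem nu_add {a b : M} (ha : a ∈ V.nonunits) (hb : b ∈ V.nonunits) : a + b ∈ V.nonunits :=
  V.nonunits.add_mem ha hb

theorem nu_neg {a : M} (ha : a ∈ V.nonunits) : -a ∈ V.nonunits :=
  V.nonunits.neg_mem ha

theorem nu_sub {a b : M} (ha : a ∈ V.nonunits) (hb : b ∈ V.nonunits) : a - b ∈ V.nonunits :=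
  V.nonunits.sub_mem ha hb

theorem nu_zero : (0 : M) ∈ V.nonunits := V.nonunits.zero_mem

theorem nu_one : (1 : M) ∉ V.nonunits := by
  rw [V.mem_nonunits_iff, map_one]
  exact lt_irrefl _

theorem nu_mem {a : M} (ha : a ∈ V.nonunits) : a ∈ V := V.nonunits_subset ha

theorem nu_mul {a b : M} (ha : a ∈ V) (hb : b ∈ V.nonunits) : a * b ∈ V.nonunits := by
  rw [V.mem_nonunits_iff_exists_mem_maximalIdeal] at hb ⊢
  obtain ⟨hb1, hb2⟩ := hb
  exact ⟨V.mul_mem _ _ ha hb1, Ideal.mul_mem_left _ (⟨a, ha⟩ : V) hb2⟩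

theorem nu_mul' {a b : M} (ha : a ∈ V.nonunits) (hb : b ∈ V) : a * b ∈ V.nonunits := by
  rw [mul_comm]
  exact nu_mul V hb ha

theorem nu_inv {a : M} (h : a ∉ V.nonunits) : a⁻¹ ∈ V := by
  by_contra hc
  apply h
  rw [V.mem_nonunits_iff_or]
  exact Or.inr hc

theorem nu_ne {a : M} (h : a ∉ V.nonunits) : a ≠ 0 := by
  rintro rfl
  exact h (nu_zero V)

theorem nu_pow {a : M} (ha : a ∈ V.nonunits) {n : ℕ} (hn : n ≠ 0) : a ^ n ∈ V.nonunits := by
  obtain ⟨m, rfl⟩ := Nat.exists_eq_succ_of_ne_zero hn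
  rw [pow_succ]
  exact nu_mul V (V.pow_mem (nu_mem V ha) m) ha

/-- the maximal ideal is prime -/
theorem nu_prime {a b : M} (_ : a ∈ V) (hab : a * b ∈ V.nonunits) :
    a ∈ V.nonunits ∨ b ∈ V.nonunits := by
  by_cases h : a ∈ V.nonunits
  · exact Or.inl h
  · right
    have h1 := nu_mul V (nu_inv V h) hab
    rwa [inv_mul_cancel_left₀ (nu_ne V h)] at h1

theorem nu_unit {a b : M} (ha : a ∉ V.nonunits) (hb : b ∉ V.nonunits) (hmem : a ∈ V) :
    a * b ∉ V.nonunits := fun h => (nu_prime V hmem h).elim ha hb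

theorem nu_add_unit {a b : M} (ha : a ∉ V.nonunits) (hb : b ∈ V.nonunits) :
    a + b ∉ V.nonunits := fun h => ha (by simpa using nu_sub V h hb)

/-- cancel a unit -/
theorem nu_cancel {a b : M} (ha : a ∉ V.nonunits) (hab : a * b ∈ V) : b ∈ V := by
  have h1 := V.mul_mem _ _ (nu_inv V ha) hab
  rwa [inv_mul_cancel_left₀ (nu_ne V ha)] at h1

theorem nu_nat (n : ℕ) : (n : M) ∈ V := natCast_mem V n

theorem nu_ofNat (n : ℕ) [n.AtLeastTwo] : (OfNat.ofNat n : M) ∈ V := by
  exact nu_nat V (OfNat.ofNat n)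

theorem nu_eval {E : Type} [Field E] (ι : E →+* M) (hι : ∀ q, ι q ∈ V) {s : M} (hs : s ∈ V)
    (P : Polynomial E) : P.eval₂ ι s ∈ V := by
  rw [Polynomial.eval₂_eq_sum_range]
  exact V.toSubring.sum_mem fun j _ => V.mul_mem _ _ (hι _) (V.pow_mem hs j)

end nu

/-- Two polynomials with a common zero. -/
theorem cop_field {E K : Type} [Field E] [CommRing K] [Nontrivial K] (f : E →+* K) (θ : K)
    (μ P : Polynomial E) (hμ : Irreducible μ) (h1 : μ.eval₂ f θ = 0) (h2 : P.eval₂ f θ = 0) :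
    μ ∣ P := by
  by_contra h
  obtain ⟨a, b, hab⟩ := (hμ.coprime_iff_not_dvd.2 h).symm.symm
  have := congrArg (Polynomial.eval₂ f θ) hab
  simp only [Polynomial.eval₂_add, Polynomial.eval₂_mul, h1, h2, mul_zero, add_zero,
    Polynomial.eval₂_one] at this
  exact zero_ne_one this

/-- Two polynomials with a common zero modulo the maximal ideal of a valuation ring. -/
theorem cop_val {E M : Type} [Field E] [Field M] (ι : E →+* M) (V : ValuationSubring M)
    (hι : ∀ q, ι q ∈ V) (s : M) (hs : s ∈ V) (g P : Polynomial E) (hg : Irreducible g)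
    (h1 : g.eval₂ ι s ∈ V.nonunits) (h2 : P.eval₂ ι s ∈ V.nonunits) : g ∣ P := by
  by_contra h
  obtain ⟨a, b, hab⟩ := (hg.coprime_iff_not_dvd.2 h).symm.symm
  have := congrArg (Polynomial.eval₂ ι s) hab
  simp only [Polynomial.eval₂_add, Polynomial.eval₂_mul, Polynomial.eval₂_one] at this
  apply nu_one V
  rw [← this]
  exact nu_add V (nu_mul V (nu_eval V ι hι hs a) h1) (nu_mul V (nu_eval V ι hι hs b) h2)

/-- a field with the same elements -/
theorem exists_field (R : Type) [CommRing R] (h : IsField R) :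
    ∃ (E : Type) (_ : Field E), Nonempty (E ≃+* R) :=
  ⟨R, h.toField, ⟨RingEquiv.refl R⟩⟩

end MP9f7b43.O
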