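import Pool.Agent.Lib.MP_9f7b43_nt.O.Spec
import Pool.Agent.Lib.MP_9f7b43_nt.O.Nu

/-!
# MP_9f7b43_nt, part O: the plane curve theorem
-/

namespace MP9f7b43.O

open C31 MP9f7b43.L Polynomial

/-- The minimal equation of `y` over `k[S]`. -/
theorem gen_min {k M : Type} [Field k] [Field M] (ι : k →+* M) (s y : M)
    (hs : ∀ P : Polynomial k, P.eval₂ ι s = 0 → P = 0)
    (H : Polynomial (Polynomial k)) (hH : H.Monic) (hHy : H.eval₂ (eval₂RingHom ι s) y = 0) :
    ∃ G : Polynomial (Polynomial k), G.Monic ∧ G.eval₂ (eval₂RingHom ι s) y = 0 ∧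
      ∀ P : Polynomial (Polynomial k), P.eval₂ (eval₂RingHom ι s) y = 0 → G ∣ P := by
  let _ : Algebra (Polynomial k) M := (eval₂RingHom ι s).toAlgebra
  have hinj : Function.Injective (algebraMap (Polynomial k) M) := by
    rw [injective_iff_map_eq_zero]
    intro P hP
    exact hs P hP
  have : FaithfulSMul (Polynomial k) M := (faithfulSMul_iff_algebraMap_injective _ _).2 hinj
  have hint : IsIntegral (Polynomial k) y := ⟨H, hH, hHy⟩
  refine ⟨minpoly (Polynomial k) y, minpoly.monic hint, minpoly.aeval _ _, ?_⟩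
  intro P hP
  exact minpoly.isIntegrallyClosed_dvd hint hP

theorem tGen : GenMod := by
  intro hHom hTrs hWtd hPdg hPev k M _ _ ι s y α β hα hβ hN hna
  obtain ⟨H, hH, hHw, hHy⟩ := hHom k M ι s y hN
  have hs := hTrs k M ι s y hN hna
  obtain ⟨G, hG, hGy, hGd⟩ := gen_min ι s y hs H hH hHy
  obtain ⟨Q, hQ⟩ := hGd H hHy
  have hQm : Q.Monic := by
    rw [hQ] at hH
    exact hG.of_mul_monic_left hH
  have hGw : Wt G := hWtd k G Q hG hQm (hQ ▸ hHw)
  obtain ⟨h1, h2, h3⟩ := hPdg k G α β hβ hG hGw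
  have h2' := h2
  refine ⟨G.natDegree, Phi G α β, h1, h2, h3, ?_, ?_⟩
  · intro g hg hgΦ
    -- the subring
    let φ : Polynomial (Polynomial k) →+* M := eval₂RingHom (eval₂RingHom ι s) y
    have hφC : ∀ P : Polynomial k, φ (C P) = P.eval₂ ι s := by
      intro P
      simp [φ]
    have hφX : φ X = y := by simp [φ]
    let A : Subring M := φ.range
    let g' : A := ⟨φ (C g), ⟨C g, rfl⟩⟩
    let W' : A := ⟨φ (C (C α + C β * X ^ 3) - C X * X), ⟨_, rfl⟩⟩
    have hW' : (W' : M) = ι α + ι β * s ^ 3 - s * y := by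
      change φ (C (C α + C β * X ^ 3) - C X * X) = _
      rw [map_sub, map_mul, hφC, hφC, hφX]
      simp
    have hI : Ideal.span {g', W'} ≠ ⊤ := by
      intro htop
      have h1 : (1 : A) ∈ Ideal.span {g', W'} := by
        rw [htop]
        trivial
      rw [Ideal.mem_span_pair] at h1
      obtain ⟨⟨a, ⟨a', ha⟩⟩, ⟨b, ⟨b', hb⟩⟩, hab⟩ := h1
      have h2 : a * φ (C g) + b * φ (C (C α + C β * X ^ 3) - C X * X) = 1 := congrArg Subtype.val hab
      rw [← ha, ← hb, ← map_mul, ← map_mul, ← map_add] at h2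
      have h3 : G ∣ 1 - (a' * C g + b' * (C (C α + C β * X ^ 3) - C X * X)) := by
        apply hGd
        change φ _ = 0
        rw [map_sub, map_one, h2, sub_self]
      obtain ⟨R, hR⟩ := h3
      -- reduce modulo g
      have : Fact (Irreducible g) := ⟨hg⟩
      let κ := AdjoinRoot g
      let f : k →+* κ := AdjoinRoot.of g
      let σ : κ := AdjoinRoot.root g
      have hgσ : g.eval₂ f σ = 0 := AdjoinRoot.eval₂_root g
      have hσ : σ ≠ 0 := by
        intro h0
        rw [h0, Polynomial.eval₂_at_zero] at hgσ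
        have hg0 : g.coeff 0 = 0 := by
          apply f.injective
          rw [hgσ, map_zero]
        obtain ⟨R', hR'⟩ := hgΦ
        rw [hR', mul_coeff_zero, hg0, zero_mul] at h2'
        exact pow_ne_zero _ hα h2'.symm
      have hΦσ : (Phi G α β).eval₂ f σ = 0 := by
        obtain ⟨R', hR'⟩ := hgΦ
        rw [hR', eval₂_mul, hgσ, zero_mul]
      rw [hPev.2 k κ f σ G α β hσ] at hΦσ
      have hGσ := (mul_eq_zero.1 hΦσ).resolve_left (pow_ne_zero _ hσ)
      have h4 := congrArg (Polynomial.eval₂ (eval₂RingHom f σ) ((f α + f β * σ ^ 3) / σ)) hR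
      rw [eval₂_mul, hGσ, zero_mul, eval₂_sub, eval₂_one, eval₂_add, eval₂_mul, eval₂_mul,
        eval₂_C, eval₂_sub, eval₂_mul, eval₂_C, eval₂_C, eval₂_X] at h4
      have h5 : (eval₂RingHom f σ) g = 0 := hgσ
      have h6 : (eval₂RingHom f σ) (C α + C β * X ^ 3) = f α + f β * σ ^ 3 := by
        simp
      have h7 : (eval₂RingHom f σ) X = σ := by simp
      rw [h5, h6, h7, mul_div_cancel₀ _ hσ, sub_self, mul_zero, mul_zero, add_zero,
        sub_zero] at h4
      exact one_ne_zero h4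
    obtain ⟨V, hV1, hV2⟩ := Ideal.image_subset_nonunits_valuationSubring (A := A) _ hI
    refine ⟨V, ?_, ?_, ?_, ?_, ?_⟩
    · intro q
      apply hV1
      exact ⟨C (C q), by rw [hφC, eval₂_C]⟩
    · apply hV1
      exact ⟨C X, by rw [hφC, eval₂_X]⟩
    · apply hV1
      exact ⟨X, hφX⟩
    · have : (g' : M) ∈ V.nonunits := hV2 ⟨g', Ideal.subset_span (by simp), rfl⟩
      rw [← hφC]
      exact this
    · rw [← hW']
      exact hV2 ⟨W', Ideal.subset_span (by simp), rfl⟩
  · intro V hV hsV hyV hW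
    exact hPev.1 k M ι s y G α β hGy V hV hsV hyV hW

end MP9f7b43.O
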