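import Pool.Agent.Lib.MP_9f7b43_nt.O.Spec

/-!
# MP_9f7b43_nt, part O, module Hom: the homogeneous integral equation
-/

namespace MP9f7b43.O

open C31 MP9f7b43.L Polynomial

/-- From a relation `1 = ∑ c_{ij} y^{-i} (s y⁻¹)^j` without constant term to the equation. -/
private theorem hom_build {k M : Type} [Field k] [Field M] (ι : k →+* M) (s y : M) (hy : y ≠ 0)
    (R : Polynomial (Polynomial k)) (h0 : (R.coeff 0).coeff 0 = 0)
    (hR : R.eval₂ (eval₂RingHom ι y⁻¹) (s * y⁻¹) = 1) :
    ∃ H : Polynomial (Polynomial k), H.Monic ∧ Wt H ∧ H.eval₂ (eval₂RingHom ι s) y = 0 := by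
  classical
  set N : ℕ := R.natDegree with hN
  set N' : ℕ := (Finset.range (N + 1)).sup (fun j => (R.coeff j).natDegree) with hN'
  have hdeg : ∀ j ∈ Finset.range (N + 1), (R.coeff j).natDegree < N' + 1 := by
    intro j hj
    exact Nat.lt_succ_of_le (Finset.le_sup (f := fun j => (R.coeff j).natDegree) hj)
  set e : ℕ := N + N' + 1 with he
  set q : Polynomial (Polynomial k) := ∑ j ∈ Finset.range (N + 1), ∑ i ∈ Finset.range (N' + 1),
    C (C ((R.coeff j).coeff i) * X ^ j) * X ^ (e - i - j) with hq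
  have hqdeg : q.degree < (e : WithBot ℕ) := by
    rw [← mem_degreeLT, hq]
    refine sum_mem ?_
    intro j hj
    refine sum_mem ?_
    intro i hi
    rw [mem_degreeLT]
    rw [Finset.mem_range] at hi hj
    by_cases h : i = 0 ∧ j = 0
    · obtain ⟨rfl, rfl⟩ := h
      rw [h0]
      simp
    · refine (degree_C_mul_X_pow_le _ _).trans_lt ?_
      have : e - i - j < e := by omega
      exact_mod_cast this
  have hmon : (X ^ e - q).Monic := monic_X_pow_sub hqdeg
  have hnat : (X ^ e - q).natDegree = e := by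
    refine natDegree_eq_of_degree_eq_some ?_
    rw [degree_sub_eq_left_of_degree_lt]
    · rw [degree_X_pow]
    · rw [degree_X_pow]; exact hqdeg
  refine ⟨X ^ e - q, hmon, ?_, ?_⟩
  · intro m hm
    rw [hnat]
    rcases Nat.lt_trichotomy m e with h | h | h
    · have h1 : ((X ^ e - q).coeff m).natDegree ≤ e - m := by
        rw [coeff_sub, coeff_X_pow, if_neg h.ne, zero_sub, natDegree_neg, hq]
        rw [finsetSum_coeff]
        refine natDegree_sum_le_of_forall_le _ _ ?_
        intro j hj
        rw [finsetSum_coeff]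
        refine natDegree_sum_le_of_forall_le _ _ ?_
        intro i hi
        rw [Finset.mem_range] at hi hj
        rw [coeff_C_mul, coeff_X_pow]
        split_ifs with h2
        · rw [mul_one]
          refine (natDegree_C_mul_X_pow_le _ _).trans ?_
          omega
        · rw [mul_zero, natDegree_zero]; omega
      omega
    · subst h
      have h1 : (X ^ e - q).coeff e = 1 := by
        have := hmon.coeff_natDegree
        rwa [hnat] at this
      rw [h1, natDegree_one]; omega
    · exact absurd (coeff_eq_zero_of_natDegree_lt (by rw [hnat]; exact h)) hm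
  · rw [eval₂_sub, eval₂_X_pow, hq, eval₂_finsetSum]
    have hsum : (∑ j ∈ Finset.range (N + 1), ∑ i ∈ Finset.range (N' + 1),
        (ι ((R.coeff j).coeff i) * y⁻¹ ^ i) * (s * y⁻¹) ^ j) = 1 := by
      rw [← hR, eval₂_eq_sum_range]
      refine Finset.sum_congr rfl ?_
      intro j hj
      rw [coe_eval₂RingHom, eval₂_eq_sum_range' ι (hdeg j hj), Finset.sum_mul]
    have h2 : ∀ j ∈ Finset.range (N + 1), eval₂ (eval₂RingHom ι s) y
        (∑ i ∈ Finset.range (N' + 1), C (C ((R.coeff j).coeff i) * X ^ j) * X ^ (e - i - j))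
        = y ^ e * ∑ i ∈ Finset.range (N' + 1),
          (ι ((R.coeff j).coeff i) * y⁻¹ ^ i) * (s * y⁻¹) ^ j := by
      intro j hj
      rw [eval₂_finsetSum, Finset.mul_sum]
      refine Finset.sum_congr rfl ?_
      intro i hi
      rw [Finset.mem_range] at hi hj
      rw [eval₂_mul, eval₂_C, eval₂_X_pow, coe_eval₂RingHom, eval₂_mul, eval₂_C, eval₂_X_pow]
      have h3 : y ^ e = y ^ (e - i - j) * (y ^ i * y ^ j) := by
        rw [← pow_add, ← pow_add]; congr 1; omega
      rw [h3, mul_pow, inv_pow, inv_pow]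
      have h4 : y ^ i ≠ 0 := pow_ne_zero _ hy
      have h5 : y ^ j ≠ 0 := pow_ne_zero _ hy
      field_simp
    rw [Finset.sum_congr rfl h2, ← Finset.mul_sum, hsum, mul_one, sub_self]

/-- **Hom.** -/
theorem tHom : HomStmt := by
  intro k M _ _ ι s y hno
  by_cases hy : y = 0
  · refine ⟨X, monic_X, ?_, ?_⟩
    · intro j hj
      rw [coeff_X] at hj ⊢
      split_ifs at hj ⊢ with h
      · rw [natDegree_one, natDegree_X]; omega
      · exact absurd rfl hj
    · rw [eval₂_X, hy]
  · set φ : Polynomial (Polynomial k) →+* M := eval₂RingHom (eval₂RingHom ι y⁻¹) (s * y⁻¹) with hφ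
    have hφC : ∀ c : k, φ (C (C c)) = ι c := by
      intro c; rw [hφ, coe_eval₂RingHom, eval₂_C, coe_eval₂RingHom, eval₂_C]
    have hφ0 : φ (C X) = y⁻¹ := by
      rw [hφ, coe_eval₂RingHom, eval₂_C, coe_eval₂RingHom, eval₂_X]
    have hφ1 : φ X = s * y⁻¹ := by
      rw [hφ, coe_eval₂RingHom, eval₂_X]
    set A : Subring M := φ.range with hA
    set a : A := ⟨y⁻¹, ⟨C X, hφ0⟩⟩ with ha
    set b : A := ⟨s * y⁻¹, ⟨X, hφ1⟩⟩ with hb
    set I : Ideal A := Ideal.span {a, b} with hI
    by_cases hT : I = ⊤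
    · have h1 : (1 : A) ∈ I := by rw [hT]; exact Submodule.mem_top
      rw [hI, Ideal.mem_span_pair] at h1
      obtain ⟨c, d, hcd⟩ := h1
      obtain ⟨P, hP⟩ := c.2
      obtain ⟨Q, hQ⟩ := d.2
      have h2 : φ (P * C X + Q * X) = 1 := by
        rw [map_add, map_mul, map_mul, hφ0, hφ1, hP, hQ]
        have := congrArg (fun x : A => (x : M)) hcd
        simpa using this
      refine hom_build ι s y hy (P * C X + Q * X) ?_ ?_
      · rw [coeff_add, coeff_mul_C, coeff_mul_X_zero, add_zero, coeff_mul_X_zero]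
      · exact h2
    · exfalso
      obtain ⟨V, hV1, hV2⟩ := Ideal.image_subset_nonunits_valuationSubring I hT
      refine hno V ?_ hy ?_ ?_
      · intro c
        exact hV1 ⟨C (C c), hφC c⟩
      · exact hV2 ⟨a, Ideal.subset_span (by simp), rfl⟩
      · exact hV2 ⟨b, Ideal.subset_span (by simp), rfl⟩

end MP9f7b43.O
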