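import Pool.Agent.Lib.MP_9f7b43_nt.O.Spec

/-!
# MP_9f7b43_nt, part O, module Ide: the explicit identities
-/

namespace MP9f7b43.O

open C31 MP9f7b43.L

theorem tIde : IdeStmt := by
  intro M _ u v z w hw hF hD
  have hs : cs u v z w * cD u v z w = (3 + 2 * w) * cX u v w - cX' u v w ^ 2 := by
    unfold cs
    exact div_mul_cancel₀ _ hD
  have hy : cy u v z w = cs u v z w * cX u v w + cX' u v w := rfl
  set s := cs u v z w with hs'
  set y := cy u v z w with hy'
  have h1 : y * cX' u v w =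
      (3 + 2 * w) * cX u v w + w * (cZ u v z + 7 * (3 - 2 * w)) * s := by
    have hD' : cD u v z w = cX u v w * cX' u v w - w * (cZ u v z + 7 * (3 - 2 * w)) := rfl
    rw [hD'] at hs
    rw [hy]
    linear_combination hs
  have h2 : y * cX u v w = (1 - 2 * w) * cX' u v w * s + w ^ 2 * (cZ u v z + 7 * (5 + 2 * w)) := by
    have key : cD u v z w * (y * cX u v w -
        ((1 - 2 * w) * cX' u v w * s + w ^ 2 * (cZ u v z + 7 * (5 + 2 * w)))) = 0 := by
      have e1 : cD u v z w * (y * cX u v w -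
          ((1 - 2 * w) * cX' u v w * s + w ^ 2 * (cZ u v z + 7 * (5 + 2 * w)))) =
          ((s * cD u v z w) * cX u v w + cX' u v w * cD u v z w) * cX u v w
          - (1 - 2 * w) * cX' u v w * (s * cD u v z w)
          - w ^ 2 * (cZ u v z + 7 * (5 + 2 * w)) * cD u v z w := by
        rw [hy]; ring
      rw [e1, hs]
      unfold Faff at hF
      unfold cD cX cX' cZ
      linear_combination hF + ((1)*u^4*w + (-2)*u^3*v*w + (-1)*u^2*v^2*w^2 + (2)*u^2*v^2*w
        + (12)*u^2*v + (2)*u^2*z*w + (-1)*u^2*z + (42)*u^2*w + (-3)*u^2 + (1)*u*v^3*w^2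
        + (-1)*u*v^3*w + (-2)*u*v*z*w + (1)*u*v*z + (-42)*u*v*w + (3)*u*v + (-1)*v^4*w^2
        + (4)*v^3*w^2 + (4)*v^3*w + (-5)*v^3 + (-1)*v^2*z*w^2 + (1)*v^2*z*w + (-1)*v^2*z
        + (14)*v^2*w^3 + (-39)*v^2*w^2 + (3)*v^2*w + (1)*z^2*w + (-1)*z^2 + (56)*z*w
        + (-56)*z + (-196)*w^3 + (931)*w + (-931)) * hw
    rcases mul_eq_zero.mp key with h | h
    · exact absurd h hD
    · exact sub_eq_zero.mp h
  refine ⟨h1, h2, ?_, ?_⟩
  · have hx : cX' u v w = y - s * cX u v w := by rw [hy]; ring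
    rw [hx] at h1 h2
    unfold cW vp vq
    generalize cX u v w = X at *
    generalize cZ u v z = Z at *
    linear_combination w * (s * h2 - w * h1) + ((28)*w^2*s + (-14)*w*s + (-2)*w*X
      + (2)*s^3*X + (-2)*s^2*y + (-1)*s*y*X + (-14)*s + (-1)*X) * hw
  · unfold Faff at hF
    unfold cZ
    linear_combination -hF

end MP9f7b43.O
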