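import Pool.Agent.Lib.MP_9f7b43_nt.O.Spec

/-!
# MP_9f7b43_nt, part O, module Loc: local analysis at poles
-/

namespace MP9f7b43.O

open C31 MP9f7b43.L Polynomial

theorem loc_add {M : Type} [Field M] {V : ValuationSubring M} {a b : M} (ha : a ∈ V.nonunits)
    (hb : b ∈ V.nonunits) : a + b ∈ V.nonunits := by
  rw [ValuationSubring.mem_nonunits_iff] at *
  exact Valuation.map_add_lt _ ha hb

theorem loc_neg {M : Type} [Field M] {V : ValuationSubring M} {a : M} (ha : a ∈ V.nonunits) :
    -a ∈ V.nonunits := by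
  rw [ValuationSubring.mem_nonunits_iff] at *
  rwa [Valuation.map_neg]

theorem loc_sub {M : Type} [Field M] {V : ValuationSubring M} {a b : M} (ha : a ∈ V.nonunits)
    (hb : b ∈ V.nonunits) : a - b ∈ V.nonunits := by
  rw [sub_eq_add_neg]; exact loc_add ha (loc_neg hb)

theorem loc_mul_right {M : Type} [Field M] {V : ValuationSubring M} {a b : M}
    (ha : a ∈ V.nonunits) (hb : b ∈ V) : a * b ∈ V.nonunits := by
  rw [ValuationSubring.mem_nonunits_iff] at *
  rw [← ValuationSubring.valuation_le_one_iff] at hb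
  rw [map_mul]
  calc V.valuation a * V.valuation b ≤ V.valuation a * 1 := by gcongr
    _ < 1 := by rwa [mul_one]

theorem loc_mul_left {M : Type} [Field M] {V : ValuationSubring M} {a b : M}
    (ha : a ∈ V) (hb : b ∈ V.nonunits) : a * b ∈ V.nonunits := by
  rw [mul_comm]; exact loc_mul_right hb ha

theorem loc_mem {M : Type} [Field M] {V : ValuationSubring M} {a : M}
    (ha : a ∈ V.nonunits) : a ∈ V := by
  rw [ValuationSubring.mem_nonunits_iff] at ha
  rw [← ValuationSubring.valuation_le_one_iff]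
  exact ha.le

theorem loc_unit {M : Type} [Field M] {V : ValuationSubring M} {a : M}
    (ha : a ∈ V) (ha' : a ∉ V.nonunits) : V.valuation a = 1 := by
  rw [ValuationSubring.mem_nonunits_iff, not_lt] at ha'
  rw [← ValuationSubring.valuation_le_one_iff] at ha
  exact le_antisymm ha ha'

theorem loc_mem_of_mul {M : Type} [Field M] {V : ValuationSubring M} {a b : M}
    (h : a * b ∈ V) (hb : V.valuation b = 1) : a ∈ V := by
  rw [← ValuationSubring.valuation_le_one_iff] at *
  rwa [map_mul, hb, mul_one] at h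

theorem loc_nonunit_of_mul {M : Type} [Field M] {V : ValuationSubring M} {a b : M}
    (h : a * b ∈ V.nonunits) (hb : V.valuation b = 1) : a ∈ V.nonunits := by
  rw [ValuationSubring.mem_nonunits_iff] at *
  rwa [map_mul, hb, mul_one] at h

theorem loc_ofNat {M : Type} [Field M] (V : ValuationSubring M) (n : ℕ) : ((n : ℕ) : M) ∈ V :=
  natCast_mem V n

/-- **Loc.** -/
theorem tLoc (hIde : IdeStmt) : LocStmt := by
  intro M _ V u v z w e hw hF hwV he0 he hu hv hz hz' hX hX'
  have heV : e ∈ V := loc_mem he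
  have n2 : (2 : M) ∈ V := by exact_mod_cast loc_ofNat V 2
  have n3 : (3 : M) ∈ V := by exact_mod_cast loc_ofNat V 3
  have n4 : (4 : M) ∈ V := by exact_mod_cast loc_ofNat V 4
  have n7 : (7 : M) ∈ V := by exact_mod_cast loc_ofNat V 7
  have n14 : (14 : M) ∈ V := by exact_mod_cast loc_ofNat V 14
  have n15 : (15 : M) ∈ V := by exact_mod_cast loc_ofNat V 15
  have n931 : (931 : M) ∈ V := by exact_mod_cast loc_ofNat V 931
  have n1 : (1 : M) ∈ V := one_mem V
  have eX : e * cX u v w ∈ V := by
    have : e * cX u v w = e * u + e * v * w := by unfold cX; ring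
    rw [this]; exact add_mem hu (mul_mem hv hwV)
  have eX' : e * cX' u v w ∈ V := by
    have : e * cX' u v w = e * u - e * v - e * v * w := by unfold cX'; ring
    rw [this]; exact sub_mem (sub_mem hu hv) (mul_mem hv hwV)
  have uX := loc_unit eX hX
  have uX' := loc_unit eX' hX'
  have uz := loc_unit hz hz'
  -- `e cZ ∈ V`
  have h4 : cZ u v z * z = 4 * u ^ 3 - 15 * u ^ 2 * v + 3 * u * v ^ 2 + 4 * v ^ 3 + 931 := by
    unfold Faff at hF; unfold cZ; linear_combination -hF
  have eZ : e * cZ u v z ∈ V := by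
    refine loc_mem_of_mul (b := e ^ 2 * z) ?_ uz
    have : e * cZ u v z * (e ^ 2 * z) = 4 * (e * u) ^ 3 - 15 * (e * u) ^ 2 * (e * v)
        + 3 * (e * u) * (e * v) ^ 2 + 4 * (e * v) ^ 3 + 931 * e ^ 3 := by
      linear_combination e ^ 3 * h4
    rw [this]
    exact add_mem (add_mem (add_mem (sub_mem (mul_mem n4 (pow_mem hu 3))
      (mul_mem (mul_mem n15 (pow_mem hu 2)) hv)) (mul_mem (mul_mem n3 hu) (pow_mem hv 2)))
      (mul_mem n4 (pow_mem hv 3))) (mul_mem n931 (pow_mem heV 3))
  -- `e ^ 2 cD` is a unit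
  have hζ : e * cZ u v z + 7 * (3 - 2 * w) * e ∈ V :=
    add_mem eZ (mul_mem (mul_mem n7 (sub_mem n3 (mul_mem n2 hwV))) heV)
  have uD : V.valuation (e ^ 2 * cD u v z w) = 1 := by
    have e1 : e ^ 2 * cD u v z w = (e * cX u v w) * (e * cX' u v w)
        - e * (w * (e * cZ u v z + 7 * (3 - 2 * w) * e)) := by
      unfold cD; ring
    have e2 : e * (w * (e * cZ u v z + 7 * (3 - 2 * w) * e)) ∈ V.nonunits :=
      loc_mul_right he (mul_mem hwV hζ)
    refine loc_unit ?_ ?_
    · rw [e1]
      exact sub_mem (mul_mem eX eX') (loc_mem e2)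
    · intro h
      have h3 := loc_add h e2
      rw [e1, sub_add_cancel, ValuationSubring.mem_nonunits_iff, map_mul, uX, uX', one_mul] at h3
      exact lt_irrefl _ h3
  have hD : cD u v z w ≠ 0 := by
    intro h
    rw [h, mul_zero, map_zero] at uD
    exact zero_ne_one uD
  obtain ⟨i1, -, i3, -⟩ := hIde M u v z w hw hF hD
  -- `cs ∈ V`
  have hs : cs u v z w ∈ V := by
    refine loc_mem_of_mul (b := e ^ 2 * cD u v z w) ?_ uD
    have : cs u v z w * (e ^ 2 * cD u v z w)
        = e * ((3 + 2 * w) * (e * cX u v w)) - (e * cX' u v w) ^ 2 := by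
      unfold cs; field_simp
    rw [this]
    exact sub_mem (mul_mem heV (mul_mem (add_mem n3 (mul_mem n2 hwV)) eX)) (pow_mem eX' 2)
  -- `cy ∈ V`
  have hy : cy u v z w ∈ V := by
    refine loc_mem_of_mul (b := e * cX' u v w) ?_ uX'
    have : cy u v z w * (e * cX' u v w) = (3 + 2 * w) * (e * cX u v w)
        + w * (e * cZ u v z + 7 * (3 - 2 * w) * e) * cs u v z w := by
      linear_combination e * i1
    rw [this]
    exact add_mem (mul_mem (add_mem n3 (mul_mem n2 hwV)) eX) (mul_mem (mul_mem hwV hζ) hs)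
  refine ⟨hD, hs, hy, ?_, ?_⟩
  · refine loc_nonunit_of_mul (b := e * cX u v w) ?_ uX
    have : cW w (cs u v z w) (cy u v z w) * (e * cX u v w) = e * (w ^ 2 * cy u v z w ^ 2 +
        vq w * cs u v z w ^ 2 * cy u v z w + 14 * (1 + 2 * w) * cs u v z w) := by
      linear_combination e * i3
    rw [this]
    refine loc_mul_right he ?_
    have hq : vq w ∈ V := by unfold vq; exact add_mem n2 (mul_mem n3 hwV)
    exact add_mem (add_mem (mul_mem (pow_mem hwV 2) (pow_mem hy 2))
      (mul_mem (mul_mem hq (pow_mem hs 2)) hy))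
      (mul_mem (mul_mem n14 (add_mem n1 (mul_mem n2 hwV))) hs)
  · have : cs u v z w * (e * cX u v w) + e * cX' u v w = e * cy u v z w := by
      unfold cy; ring
    rw [this]
    exact loc_mul_right he hy

end MP9f7b43.O
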