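import Pool.Agent.Lib.MP_9f7b43_nt.O.Spec

namespace MP9f7b43.O

open C31 MP9f7b43.L

private instance Pad_fact : Fact (Nat.Prime 7) := ⟨by norm_num⟩

private theorem Pad_one (n : ℤ) (h : IsCoprime n (7 : ℤ)) : ‖(n : ℤ_[7])‖ = 1 := by
  rw [PadicInt.norm_intCast_eq_one_iff]
  exact_mod_cast h

private theorem Pad_lt (n : ℤ) (h : (7 : ℤ) ∣ n) : ‖(n : ℤ_[7])‖ < 1 :=
  (PadicInt.norm_int_lt_one_iff_dvd n).mpr (by exact_mod_cast h)

private theorem Pad_w : ∃ w : ℤ_[7], w ^ 2 + w + 1 = 0 ∧ ‖w - 2‖ < 1 := by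
  have h1 : (Polynomial.X ^ 2 + Polynomial.X + 1 : Polynomial ℤ_[7]).aeval (2 : ℤ_[7]) =
      ((7 : ℤ) : ℤ_[7]) := by
    simp; norm_num
  have h2 : (Polynomial.X ^ 2 + Polynomial.X + 1 : Polynomial ℤ_[7]).derivative.aeval
      (2 : ℤ_[7]) = ((5 : ℤ) : ℤ_[7]) := by
    simp; norm_num
  have h3 : ‖((5 : ℤ) : ℤ_[7])‖ = 1 := Pad_one 5 (by norm_num)
  obtain ⟨z, hz1, hz2, -, -⟩ := hensels_lemma (p := 7)
    (F := (Polynomial.X ^ 2 + Polynomial.X + 1 : Polynomial ℤ_[7])) (a := 2) (by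
      rw [h1, h2, h3, one_pow]
      exact Pad_lt 7 dvd_rfl)
  refine ⟨z, by simpa using hz1, ?_⟩
  rw [h2, h3] at hz2
  exact hz2

private theorem Pad_r : ∃ r : ℤ_[7], r ^ 3 = r + 1 := by
  have h1 : (Polynomial.X ^ 3 - Polynomial.X - 1 : Polynomial ℤ_[7]).aeval (5 : ℤ_[7]) =
      ((119 : ℤ) : ℤ_[7]) := by
    simp; norm_num
  have h2 : (Polynomial.X ^ 3 - Polynomial.X - 1 : Polynomial ℤ_[7]).derivative.aeval
      (5 : ℤ_[7]) = ((74 : ℤ) : ℤ_[7]) := by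
    simp; norm_num
  have h3 : ‖((74 : ℤ) : ℤ_[7])‖ = 1 := Pad_one 74 (by norm_num)
  obtain ⟨z, hz1, -, -, -⟩ := hensels_lemma (p := 7)
    (F := (Polynomial.X ^ 3 - Polynomial.X - 1 : Polynomial ℤ_[7])) (a := 5) (by
      rw [h1, h2, h3, one_pow]
      exact Pad_lt 119 (by norm_num))
  refine ⟨z, ?_⟩
  have : z ^ 3 - z - 1 = 0 := by simpa using hz1
  linear_combination this

theorem tPad : PadStmt := by
  intro hf
  obtain ⟨w, hw, hw2⟩ := Pad_w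
  obtain ⟨r, hr⟩ := Pad_r
  have hw' : (w : ℚ_[7]) ^ 2 + (w : ℚ_[7]) + 1 = 0 := by exact_mod_cast congrArg ((↑) : ℤ_[7] → ℚ_[7]) hw
  have hr' : (r : ℚ_[7]) ^ 3 = (r : ℚ_[7]) + 1 := by exact_mod_cast congrArg ((↑) : ℤ_[7] → ℚ_[7]) hr
  let ψ : S6 ℚ →+* ℚ_[7] := S6.ev (algebraMap ℚ ℚ_[7]) (r : ℚ_[7]) (w : ℚ_[7]) hr' hw'
  have hψ : ∀ a : S6 ℚ, a ≠ 0 → ψ a ≠ 0 := by
    intro a ha h0
    obtain ⟨b, hb⟩ := hf.mul_inv_cancel ha
    have := congrArg ψ hb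
    rw [map_mul, h0, zero_mul, map_one] at this
    exact zero_ne_one this
  have hom : ψ (S6.om ℚ) = (w : ℚ_[7]) := S6.ev_om _ _ _ _ _
  have hq : ψ (vq (S6.om ℚ)) = ((2 + 3 * w : ℤ_[7]) : ℚ_[7]) := by
    rw [map_vq, hom, vq]
    have e2 : ((2 : ℤ_[7]) : ℚ_[7]) = 2 := map_ofNat (PadicInt.Coe.ringHom (p := 7)) 2
    have e3 : ((3 : ℤ_[7]) : ℚ_[7]) = 3 := map_ofNat (PadicInt.Coe.ringHom (p := 7)) 3
    rw [PadicInt.coe_add, PadicInt.coe_mul, e2, e3]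
  have hq1 : ‖(2 + 3 * w : ℤ_[7])‖ = 1 := by
    have e : (2 + 3 * w : ℤ_[7]) = ((8 : ℤ) : ℤ_[7]) + 3 * (w - 2) := by
      push_cast; ring
    have h8 : ‖((8 : ℤ) : ℤ_[7])‖ = 1 := Pad_one 8 (by norm_num)
    have h3 : ‖3 * (w - 2)‖ < 1 := by
      rw [norm_mul]
      calc ‖(3 : ℤ_[7])‖ * ‖w - 2‖ ≤ 1 * ‖w - 2‖ :=
            mul_le_mul_of_nonneg_right (PadicInt.norm_le_one _) (norm_nonneg _)
        _ < 1 := by rw [one_mul]; exact hw2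
    rw [e, PadicInt.norm_add_eq_max_of_ne (by rw [h8]; exact h3.ne'), h8, max_eq_left h3.le]
  have hq2 : (ψ (vq (S6.om ℚ))).valuation = 0 := by
    rw [hq]
    have hne : ((2 + 3 * w : ℤ_[7]) : ℚ_[7]) ≠ 0 := by
      intro h
      rw [PadicInt.norm_def, h, norm_zero] at hq1
      exact zero_ne_one hq1
    have h1 := Padic.norm_eq_zpow_neg_valuation hne
    rw [← PadicInt.norm_def, hq1] at h1
    have h2 : ((7 : ℕ) : ℝ) ^ (-(((2 + 3 * w : ℤ_[7]) : ℚ_[7]).valuation)) = ((7 : ℕ) : ℝ) ^ (0 : ℤ) := by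
      rw [← h1, zpow_zero]
    have h3 := zpow_right_injective₀ (by norm_num : (0 : ℝ) < ((7 : ℕ) : ℝ)) (by norm_num) h2
    omega
  have hpq : vp (S6.om ℚ) * vq (S6.om ℚ) = 7 := by
    have h := S6.om_rel (R := ℚ)
    unfold vp vq
    linear_combination (-9 : S6 ℚ) * h
  have hne7 : (ψ (vp (S6.om ℚ)) * ψ (vq (S6.om ℚ))) = 7 := by
    rw [← map_mul, hpq, map_ofNat]
  have h7 : (7 : ℚ_[7]) ≠ 0 := by norm_num
  have hp0 : ψ (vp (S6.om ℚ)) ≠ 0 := by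
    intro h; rw [h, zero_mul] at hne7; exact h7 hne7.symm
  have hq0 : ψ (vq (S6.om ℚ)) ≠ 0 := by
    intro h; rw [h, mul_zero] at hne7; exact h7 hne7.symm
  refine ⟨fun a => (ψ a).valuation, ?_, ?_, hq2⟩
  · intro a b ha hb
    simp only [map_mul]
    exact Padic.valuation_mul (hψ a ha) (hψ b hb)
  · have h1 := congrArg Padic.valuation hne7
    rw [Padic.valuation_mul hp0 hq0, hq2, add_zero] at h1
    simp only
    rw [h1]
    have := Padic.valuation_p (p := 7)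
    exact_mod_cast this

end MP9f7b43.O
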