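import Pool.Agent.Lib.MP_9f7b43_nt.O.Spec

/-!
# MP_9f7b43_nt, part O, module Pdg: degree, leading and constant coefficient of Phi
-/

namespace MP9f7b43.O

open C31 MP9f7b43.L Polynomial

theorem pdg_base {k : Type} [Field k] (α β : k) (hβ : β ≠ 0) :
    (C α + C β * X ^ 3 : Polynomial k).natDegree = 3 ∧
      (C α + C β * X ^ 3 : Polynomial k).leadingCoeff = β := by
  have h1 : (C β * X ^ 3 : Polynomial k).natDegree = 3 := natDegree_C_mul_X_pow 3 β hβ
  have h2 : (C α : Polynomial k).natDegree < (C β * X ^ 3 : Polynomial k).natDegree := by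
    rw [h1, natDegree_C]; norm_num
  refine ⟨?_, ?_⟩
  · rw [natDegree_add_eq_right_of_natDegree_lt h2, h1]
  · rw [leadingCoeff_add_of_degree_lt (degree_lt_degree h2), leadingCoeff_C_mul_X_pow]

theorem tPdg : PdgStmt := by
  intro k _ G α β hβ hG hW
  obtain ⟨hb1, hb2⟩ := pdg_base α β hβ
  set D := G.natDegree with hD
  set B : Polynomial k := C α + C β * X ^ 3 with hB
  have hcD : G.coeff D = 1 := hG.coeff_natDegree
  have hPhi : Phi G α β = (∑ j ∈ Finset.range D, G.coeff j * X ^ (D - j) * B ^ j) + B ^ D := by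
    unfold Phi
    rw [← hD, Finset.sum_range_succ, hcD]
    simp [hB]
  set R : Polynomial k := ∑ j ∈ Finset.range D, G.coeff j * X ^ (D - j) * B ^ j with hR
  have hBD : (B ^ D).natDegree = 3 * D := by
    rw [natDegree_pow, hb1, mul_comm]
  have hB0 : B ≠ 0 := by
    intro h
    rw [h] at hb1
    simp at hb1
  have hterm : ∀ j ∈ Finset.range D, (G.coeff j * X ^ (D - j) * B ^ j).natDegree < 3 * D := by
    intro j hj
    have hj' : j < D := Finset.mem_range.mp hj
    by_cases h0 : G.coeff j = 0
    · rw [h0]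
      simp
      omega
    have h1 := hW j h0
    rw [← hD] at h1
    have h2 : (G.coeff j * X ^ (D - j) * B ^ j).natDegree ≤
        (G.coeff j).natDegree + (D - j) + 3 * j := by
      refine natDegree_mul_le.trans ?_
      refine add_le_add (natDegree_mul_le.trans ?_) ?_
      · rw [natDegree_X_pow]
      · rw [natDegree_pow, hb1, mul_comm]
    omega
  have hRdeg : R.degree < (B ^ D).degree := by
    rw [degree_eq_natDegree (pow_ne_zero D hB0), hBD, degree_lt_iff_coeff_zero]
    intro m hm
    rw [hR, finsetSum_coeff]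
    refine Finset.sum_eq_zero fun j hj => ?_
    exact coeff_eq_zero_of_natDegree_lt (lt_of_lt_of_le (hterm j hj) hm)
  refine ⟨?_, ?_, ?_⟩
  · rw [hPhi, natDegree_add_eq_right_of_degree_lt hRdeg, hBD]
  · rw [hPhi, coeff_zero_eq_eval_zero, eval_add, hR, eval_finsetSum]
    rw [Finset.sum_eq_zero, zero_add, eval_pow, hB]
    · simp
    · intro j hj
      have hj' : j < D := Finset.mem_range.mp hj
      have : D - j ≠ 0 := by omega
      simp [this]
  · rw [hPhi, leadingCoeff_add_of_degree_lt hRdeg, leadingCoeff_pow, hb2]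

end MP9f7b43.O
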