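import Pool.Agent.Lib.MP_9f7b43_nt.O.Spec

/-!
# MP_9f7b43_nt, part O, module Pev: values of `Phi`
-/

namespace MP9f7b43.O

open Polynomial

/-- In a commutative ring: if `α + β σ ^ 3 = σ η` then `Φ(σ) = σ ^ D G(σ, η)`. -/
theorem pev_eval {k R : Type} [Field k] [CommRing R] (ι : k →+* R) (σ η : R)
    (G : Polynomial (Polynomial k)) (α β : k) (h : ι α + ι β * σ ^ 3 = σ * η) :
    (Phi G α β).eval₂ ι σ = σ ^ G.natDegree * G.eval₂ (eval₂RingHom ι σ) η := by
  rw [eval₂_eq_sum_range (p := G), Finset.mul_sum, Phi, eval₂_finsetSum]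
  refine Finset.sum_congr rfl fun j hj => ?_
  have hj' : j ≤ G.natDegree := Nat.lt_succ_iff.mp (Finset.mem_range.mp hj)
  rw [eval₂_mul, eval₂_mul, eval₂_pow, eval₂_pow, eval₂_X, eval₂_add, eval₂_mul, eval₂_C, eval₂_C,
    eval₂_pow, eval₂_X, h, mul_pow, coe_eval₂RingHom]
  calc eval₂ ι σ (G.coeff j) * σ ^ (G.natDegree - j) * (σ ^ j * η ^ j)
      = (σ ^ (G.natDegree - j) * σ ^ j) * (eval₂ ι σ (G.coeff j) * η ^ j) := by ring
    _ = σ ^ G.natDegree * (eval₂ ι σ (G.coeff j) * η ^ j) := by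
        rw [← pow_add, Nat.sub_add_cancel hj']

theorem pev_fst (k M : Type) [Field k] [Field M] (ι : k →+* M) (s y : M)
    (G : Polynomial (Polynomial k)) (α β : k) (hG : G.eval₂ (eval₂RingHom ι s) y = 0)
    (V : ValuationSubring M) (hV : ∀ q, ι q ∈ V) (hs : s ∈ V) (hy : y ∈ V)
    (hn : ι α + ι β * s ^ 3 - s * y ∈ V.nonunits) : (Phi G α β).eval₂ ι s ∈ V.nonunits := by
  -- lift everything to `V`
  let ι' : k →+* V := ι.codRestrict V.toSubring hV
  let s' : V := ⟨s, hs⟩
  let y' : V := ⟨y, hy⟩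
  have hι : (V.subtype).comp ι' = ι := by
    ext q
    rfl
  have hΦ : ((((Phi G α β).eval₂ ι' s' : V)) : M) = (Phi G α β).eval₂ ι s := by
    have h1 := hom_eval₂ (Phi G α β) ι' V.subtype s'
    rw [hι] at h1
    exact h1
  have hG' : G.eval₂ (eval₂RingHom ι' s') y' = 0 := by
    have h1 := hom_eval₂ G (eval₂RingHom ι' s') V.subtype y'
    have h2 : V.subtype.comp (eval₂RingHom ι' s') = eval₂RingHom ι s := by
      apply Polynomial.ringHom_ext
      · intro a
        simp only [RingHom.comp_apply, coe_eval₂RingHom, eval₂_C]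
        rfl
      · simp only [RingHom.comp_apply, coe_eval₂RingHom, eval₂_X]
        rfl
    rw [h2] at h1
    have h3 : V.subtype (G.eval₂ (eval₂RingHom ι' s') y') = 0 := by
      rw [h1]
      exact hG
    exact Subtype.ext h3
  -- reduce modulo the maximal ideal
  have hn' : IsLocalRing.residue V (ι' α + ι' β * s' ^ 3 - s' * y') = 0 := by
    rw [IsLocalRing.residue_eq_zero_iff]
    apply (ValuationSubring.coe_mem_nonunits_iff).mp
    exact hn
  rw [← hΦ, ValuationSubring.coe_mem_nonunits_iff, ← IsLocalRing.residue_eq_zero_iff]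
  have h4 := hom_eval₂ (Phi G α β) ι' (IsLocalRing.residue V) s'
  rw [h4, pev_eval ((IsLocalRing.residue V).comp ι') (IsLocalRing.residue V s')
    (IsLocalRing.residue V y') G α β]
  · have h5 := hom_eval₂ G (eval₂RingHom ι' s') (IsLocalRing.residue V) y'
    have h6 : (IsLocalRing.residue V).comp (eval₂RingHom ι' s') =
        eval₂RingHom ((IsLocalRing.residue V).comp ι') (IsLocalRing.residue V s') := by
      apply Polynomial.ringHom_ext
      · intro a
        simp only [RingHom.comp_apply, coe_eval₂RingHom, eval₂_C]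
      · simp only [RingHom.comp_apply, coe_eval₂RingHom, eval₂_X]
    rw [h6] at h5
    rw [← h5, hG', map_zero, mul_zero]
  · rw [map_sub, map_add, map_mul, map_mul, map_pow, sub_eq_zero] at hn'
    exact hn'

theorem tPev : PevStmt := by
  refine ⟨?_, ?_⟩
  · intro k M _ _ ι s y G α β hG V hV hs hy hn
    exact pev_fst k M ι s y G α β hG V hV hs hy hn
  · intro k κ _ _ ι σ G α β hσ
    apply pev_eval
    rw [mul_div_cancel₀ _ hσ]

end MP9f7b43.O
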