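import Pool.Agent.Lib.MP_9f7b43_nt.O.Spec

/-!
# MP_9f7b43_nt, part O, module Pnt: the equation at the root
-/

namespace MP9f7b43.O

open C31 MP9f7b43.L Polynomial

theorem tPnt : PntStmt := by
  intro L M _ _ i r x hr hx
  obtain ⟨q, hq⟩ := hx
  have h1 := congrArg (Polynomial.eval₂ i r) hq
  have h2 : Polynomial.eval₂ i r (X ^ 3 - X - 1 : Polynomial L) = 0 := by
    simp only [eval₂_sub, eval₂_pow, eval₂_X, eval₂_one]
    rw [hr]; ring
  rw [eval₂_mul, h2, zero_mul] at h1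
  have hg : ∀ j, Polynomial.eval₂ i r (gen x j) = pt i r x j := by
    intro j
    unfold gen pt
    rw [Fin.sum_univ_three]
    simp
  rw [← hg 0, ← hg 1, ← hg 2, ← h1]
  unfold Faff
  simp only [eval₂_add, eval₂_sub, eval₂_mul, eval₂_pow, eval₂_ofNat]

end MP9f7b43.O
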