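import Pool.Agent.Lib.MP_9f7b43_nt.O.Spec

/-!
# MP_9f7b43_nt, part O: the residue field of `O`
-/

namespace MP9f7b43.O

open C31 MP9f7b43.L Polynomial

private theorem res_monic : (X ^ 3 - X - 1 : ℚ[X]).Monic := by monicity!

private theorem res_natDegree : (X ^ 3 - X - 1 : ℚ[X]).natDegree = 3 := by compute_degree!

private theorem res_norat (q : ℚ) : q ^ 3 - q - 1 ≠ 0 := by
  intro h
  have hint : IsIntegral ℤ q := by
    refine ⟨X ^ 3 - X - 1, by monicity!, ?_⟩
    simpa using h
  obtain ⟨z, hz⟩ := IsIntegrallyClosed.isIntegral_iff.1 hint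
  have hz' : (z : ℚ) = q := by simpa using hz
  rw [← hz'] at h
  have h1 : z ^ 3 - z - 1 = 0 := by exact_mod_cast h
  have h2 : z * (z ^ 2 - 1) = 1 := by linear_combination h1
  have h3 : IsUnit z := IsUnit.of_mul_eq_one _ h2
  rcases Int.isUnit_iff.1 h3 with h4 | h4
  · rw [h4] at h1
    norm_num at h1
  · rw [h4] at h1
    norm_num at h1

private theorem res_irr : Irreducible (X ^ 3 - X - 1 : ℚ[X]) := by
  refine Polynomial.irreducible_of_degree_le_three_of_not_isRoot ?_ ?_
  · rw [res_natDegree]
    decide
  · intro q hq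
    rw [Polynomial.IsRoot.def] at hq
    simp only [eval_sub, eval_pow, eval_X, eval_one] at hq
    exact res_norat q hq

private theorem res_noroot (k : Type) [Field k] [Algebra ℚ k] [FiniteDimensional ℚ k]
    (hk : Module.finrank ℚ k ≤ 2) (x : k) : x ^ 3 ≠ x + 1 := by
  intro hx
  have h1 : aeval x (X ^ 3 - X - 1 : ℚ[X]) = 0 := by
    simp only [map_sub, map_pow, aeval_X, map_one]
    rw [hx]
    ring
  have h2 := minpoly.eq_of_irreducible_of_monic res_irr h1 res_monic
  have h3 : (minpoly ℚ x).natDegree ≤ Module.finrank ℚ k := minpoly.natDegree_le x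
  rw [← h2, res_natDegree] at h3
  omega

theorem tRes : ResStmt := by
  intro L _ _ O hO F _ hF res hres hres0
  haveI : IsLocalHom res := by
    refine ⟨fun y hy => ?_⟩
    by_contra hn
    have h1 : (y : L) ∈ O.nonunits := by
      rw [ValuationSubring.coe_mem_nonunits_iff]
      exact (IsLocalRing.mem_maximalIdeal y).2 hn
    exact hy.ne_zero ((hres0 y).2 h1)
  let k : Type := IsLocalRing.ResidueField O
  let π : O →+* k := IsLocalRing.residue O
  let j : k →+* ℝ := IsLocalRing.ResidueField.lift res
  have hπ : Function.Surjective π := IsLocalRing.residue_surjective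
  have hj : ∀ x : k, j x ∈ F := by
    intro x
    obtain ⟨y, rfl⟩ := hπ x
    have h1 : j (π y) = res y := rfl
    rw [h1]
    exact hres y
  haveI : CharZero k := j.charZero
  letI : Algebra ℚ k := DivisionRing.toRatAlgebra
  let lin : k →ₗ[ℚ] F :=
    { toFun := fun x => ⟨j x, hj x⟩
      map_add' := fun x y => Subtype.ext (map_add j x y)
      map_smul' := fun q x => Subtype.ext (map_rat_smul j q x) }
  have hlin : Function.Injective lin := by
    intro x y hxy
    exact j.injective (congrArg Subtype.val hxy)
  haveI hfd : FiniteDimensional ℚ k := FiniteDimensional.of_injective lin hlin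
  have hfr : Module.finrank ℚ k ≤ 2 :=
    (LinearMap.finrank_le_finrank_of_injective hlin).trans hF
  refine ⟨k, inferInstance, inferInstance, π, j, hπ, fun y => ?_, hfd, hfr, res_noroot k hfr⟩
  rw [ValuationSubring.coe_mem_nonunits_iff]
  exact IsLocalRing.residue_eq_zero_iff y

end MP9f7b43.O
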