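import Pool.Agent.Lib.MP_9f7b43_nt.O.Spec

/-!
# MP_9f7b43_nt, part O: the residue of `s` does not depend on the valuation ring
-/

namespace MP9f7b43.O

open C31 MP9f7b43.L Polynomial

private theorem tfr_mul {M : Type} [Field M] (V : ValuationSubring M) {a b : M} (ha : a ∈ V)
    (hb : b ∈ V.nonunits) : a * b ∈ V.nonunits := by
  rw [ValuationSubring.mem_nonunits_iff] at hb ⊢
  rw [← V.valuation_le_one_iff] at ha
  rw [map_mul]
  exact mul_lt_one_of_nonneg_of_lt_one_right ha zero_le hb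

/-- division by a unit -/
private theorem tfr_cancel {M : Type} [Field M] (V : ValuationSubring M) {a b : M} (ha : a ∈ V)
    (ha' : a ∉ V.nonunits) (hb : a * b ∈ V.nonunits) : b ∈ V.nonunits := by
  have h0 : a ≠ 0 := by
    rintro rfl
    exact ha' (V.mem_nonunits_iff_or.2 (Or.inl rfl))
  have h1 : a⁻¹ ∈ V := by
    by_contra h
    exact ha' (V.mem_nonunits_iff_or.2 (Or.inr h))
  have h2 := tfr_mul V h1 hb
  rwa [inv_mul_cancel_left₀ h0] at h2

/-- values of a polynomial at congruent elements -/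
private theorem tfr_poly {M E : Type} [Field M] [CommRing E] (V : ValuationSubring M) (f : E →+* M)
    (hf : ∀ c, f c ∈ V) {s t : M} (hs : s ∈ V) (ht : t ∈ V) (hst : s - t ∈ V.nonunits) (P : Polynomial E) :
    P.eval₂ f s - P.eval₂ f t ∈ V.nonunits := by
  have hev : ∀ x ∈ V, ∀ Q : Polynomial E, Q.eval₂ f x ∈ V := by
    intro x hx Q
    rw [eval₂_eq_sum_range]
    exact sum_mem fun j _ => mul_mem (hf _) (pow_mem hx j)
  have hdvd : ∀ j : ℕ, ∃ q ∈ V, s ^ j - t ^ j = (s - t) * q := by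
    intro j
    refine ⟨∑ i ∈ Finset.range j, s ^ i * t ^ (j - 1 - i), ?_, ?_⟩
    · exact sum_mem fun i _ => mul_mem (pow_mem hs _) (pow_mem ht _)
    · rw [mul_comm, (Commute.all s t).geom_sum₂_mul]
  rw [eval₂_eq_sum_range, eval₂_eq_sum_range, ← Finset.sum_sub_distrib]
  refine sum_mem fun j _ => ?_
  obtain ⟨q, hq, hq2⟩ := hdvd j
  rw [← mul_sub, hq2]
  have h1 : f (P.coeff j) * ((s - t) * q) = (f (P.coeff j) * q) * (s - t) := by ring
  rw [h1]
  exact tfr_mul V (mul_mem (hf _) hq) hst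

theorem tTfr (hUni : UniStmt) : TfrStmt := by
  intro L M k _ _ _ _ _ i O hO V hV π hsurj hπ hfld r w hr hw ξ₁ ξ₂ s θ hs h1 h2 h3 P
  have hU := fun ξ : S6 O => hUni L M k i O V hV π hsurj hπ hfld r w hr hw ξ
  obtain ⟨ev, hev⟩ : ∃ ev : S6 O →+* M, ev = S6.ev (i.comp O.subtype) r w hr hw := ⟨_, rfl⟩
  rw [← hev] at hU h2
  -- lift
  choose lift hlift using hsurj
  obtain ⟨θ', hθ'⟩ : ∃ θ' : S6 O, S6.map π θ' = θ := by
    refine ⟨⟨⟨lift θ.a0.re, lift θ.a0.im⟩, ⟨lift θ.a1.re, lift θ.a1.im⟩, ⟨lift θ.a2.re, lift θ.a2.im⟩⟩, ?_⟩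
    apply Cub.ext
    · exact Eis.ext (hlift _) (hlift _)
    · exact Eis.ext (hlift _) (hlift _)
    · exact Eis.ext (hlift _) (hlift _)
  have h4 : ev (ξ₂ + ξ₁ * θ') ∈ V.nonunits := by
    rw [(hU _).2, map_add, map_mul, hθ', add_comm, mul_comm]
    exact h3
  have h5 : ev ξ₁ * (s - ev θ') ∈ V.nonunits := by
    have h6 := sub_mem h2 h4
    have h7 : s * ev ξ₁ + ev ξ₂ - ev (ξ₂ + ξ₁ * θ') = ev ξ₁ * (s - ev θ') := by
      rw [map_add, map_mul]
      ring
    rwa [h7] at h6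
  have h6 : s - ev θ' ∈ V.nonunits :=
    tfr_cancel V (hU ξ₁).1 (fun h => h1 ((hU ξ₁).2.1 h)) h5
  -- the constants
  obtain ⟨c, hc⟩ : ∃ c : ℚ →+* O, c = (algebraMap ℚ L).codRestrict O.toSubring hO := ⟨_, rfl⟩
  have hcL : O.subtype.comp c = algebraMap ℚ L := by
    rw [hc]
    rfl
  have hcπ : π.comp c = algebraMap ℚ k := Subsingleton.elim _ _
  obtain ⟨lam, hlam⟩ : ∃ lam : S6 ℚ →+* S6 O, lam = S6.map c := ⟨_, rfl⟩
  have hf : S6.ev (i.comp (algebraMap ℚ L)) r w hr hw = ev.comp lam := by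
    rw [hev, hlam, ← hcL]
    rfl
  have hcomp : (S6.map π).comp lam = S6.map (algebraMap ℚ k) := by
    rw [hlam, ← S6.map_comp, hcπ]
  have h8 := tfr_poly V (ev.comp lam) (fun c => (hU (lam c)).1) hs (hU θ').1 h6 P
  have h9 : P.eval₂ (ev.comp lam) (ev θ') = ev (P.eval₂ lam θ') := (hom_eval₂ P lam ev θ').symm
  have h10 : S6.map π (P.eval₂ lam θ') = P.eval₂ (S6.map (algebraMap ℚ k)) θ := by
    rw [hom_eval₂, hcomp, hθ']
  rw [hf]
  constructor
  · intro h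
    have h11 := sub_mem h h8
    rw [sub_sub_cancel, h9, (hU _).2, h10] at h11
    exact h11
  · intro h
    rw [← h10, ← (hU _).2, ← h9] at h
    have h11 := add_mem h8 h
    rwa [sub_add_cancel] at h11

end MP9f7b43.O
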