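import Pool.Agent.Lib.MP_9f7b43_nt.O.Spec

/-!
# MP_9f7b43_nt, part O, module Trs: s is transcendental
-/

namespace MP9f7b43.O

open C31 MP9f7b43.L Polynomial

theorem trs_integral {k M : Type} [Field k] [Field M] (ι : k →+* M) (V : ValuationSubring M)
    (hV : ∀ q, ι q ∈ V) (P : Polynomial k) (hP : P ≠ 0) (s : M) (hs : P.eval₂ ι s = 0) :
    s ∈ V := by
  set ιV : k →+* V := ι.codRestrict V.toSubring hV with hιV
  have hcomp : (algebraMap V M).comp ιV = ι := by
    ext q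
    rfl
  have hmon : (P * C P.leadingCoeff⁻¹).Monic := monic_mul_leadingCoeff_inv hP
  have hint : IsIntegral V s := by
    refine ⟨(P * C P.leadingCoeff⁻¹).map ιV, hmon.map _, ?_⟩
    rw [eval₂_map, hcomp, eval₂_mul, hs, zero_mul]
  obtain ⟨y, hy⟩ := IsIntegrallyClosed.isIntegral_iff.mp hint
  rw [← hy]
  exact y.2

theorem tTrs : TrsStmt := by
  intro k M _ _ ι s y hN halg P hP
  by_contra hP0
  have hy : ∀ Q : Polynomial k, Q ≠ 0 → Q.eval₂ ι y ≠ 0 := by
    intro Q hQ h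
    exact halg ⟨⟨P, hP0, hP⟩, ⟨Q, hQ, h⟩⟩
  have hy0 : y ≠ 0 := by
    intro h
    apply hy X X_ne_zero
    rw [eval₂_X, h]
  set A : Subring M := (eval₂RingHom ι y⁻¹).range with hA
  have htA : y⁻¹ ∈ A := ⟨X, by simp⟩
  set I : Ideal A := Ideal.span {⟨y⁻¹, htA⟩} with hI
  have hItop : I ≠ ⊤ := by
    intro h
    have h1 : (1 : A) ∈ I := by rw [h]; exact Submodule.mem_top
    rw [hI, Ideal.mem_span_singleton] at h1
    obtain ⟨a, ha⟩ := h1
    obtain ⟨p, hp⟩ := a.2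
    have h2 : (1 : M) = y⁻¹ * (a : M) := congrArg Subtype.val ha
    have h3 : (1 - X * p : Polynomial k).eval₂ ι y⁻¹ = 0 := by
      rw [eval₂_sub, eval₂_mul, eval₂_one, eval₂_X]
      rw [coe_eval₂RingHom] at hp
      rw [hp, ← h2, sub_self]
    have h4 : (1 - X * p : Polynomial k) ≠ 0 := by
      intro h5
      have h6 := congrArg (fun f : Polynomial k => f.coeff 0) h5
      simp at h6
    let _ : Invertible (y⁻¹) := invertibleOfNonzero (inv_ne_zero hy0)
    have h5 := (eval₂_reverse_eq_zero_iff ι y⁻¹ (1 - X * p)).mpr h3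
    rw [invOf_eq_inv, inv_inv] at h5
    refine hy _ ?_ h5
    rw [Ne, reverse_eq_zero]
    exact h4
  obtain ⟨V, hV1, hV2⟩ := Ideal.image_subset_nonunits_valuationSubring I hItop
  have hk : ∀ q, ι q ∈ V := by
    intro q
    exact hV1 ⟨C q, by simp⟩
  have ht : y⁻¹ ∈ V.nonunits := by
    apply hV2
    exact ⟨⟨y⁻¹, htA⟩, Ideal.subset_span rfl, rfl⟩
  have hsV : s ∈ V := trs_integral ι V hk P hP0 s hP
  refine hN V hk hy0 ht ?_
  rw [ValuationSubring.mem_nonunits_iff] at ht ⊢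
  rw [map_mul]
  have h1 : V.valuation s ≤ 1 := (V.valuation_le_one_iff s).mpr hsV
  exact mul_lt_one_of_nonneg_of_lt_one_right h1 zero_le ht

end MP9f7b43.O
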