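import Pool.Agent.Lib.MP_9f7b43_nt.O.Spec

/-!
# MP_9f7b43_nt, part O: the units of `S6 O` at a valuation ring over `O`
-/

namespace MP9f7b43.O

open C31 MP9f7b43.L Polynomial

private theorem uni_mul {M : Type} [Field M] (V : ValuationSubring M) {a b : M} (ha : a ∈ V)
    (hb : b ∈ V.nonunits) : a * b ∈ V.nonunits := by
  rw [ValuationSubring.mem_nonunits_iff] at hb ⊢
  rw [← V.valuation_le_one_iff] at ha
  rw [map_mul]
  exact mul_lt_one_of_nonneg_of_lt_one_right ha zero_le hb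

private theorem uni_one {M : Type} [Field M] (V : ValuationSubring M) : (1 : M) ∉ V.nonunits := by
  rw [ValuationSubring.mem_nonunits_iff, map_one]
  exact lt_irrefl 1

private theorem uni_r {M : Type} [Field M] (V : ValuationSubring M) {r : M} (hr : r ^ 3 = r + 1) : r ∈ V := by
  rcases V.mem_or_inv_mem r with h | h
  · exact h
  · have hr0 : r ≠ 0 := by
      rintro rfl
      norm_num at hr
    have h1 : r = r⁻¹ + r⁻¹ ^ 2 := by
      field_simp
      exact hr
    rw [h1]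
    exact V.add_mem _ _ h (pow_mem h 2)

private theorem uni_w {M : Type} [Field M] (V : ValuationSubring M) {w : M} (hw : w ^ 2 + w + 1 = 0) : w ∈ V := by
  rcases V.mem_or_inv_mem w with h | h
  · exact h
  · have hw0 : w ≠ 0 := by
      rintro rfl
      norm_num at hw
    have h1 : w = -1 - w⁻¹ := by
      field_simp
      linear_combination hw
    rw [h1]
    exact sub_mem (neg_mem (one_mem V)) h

private theorem uni_ev {M L : Type} [Field L] [Field M] (i : L →+* M) (O : ValuationSubring L) (S : AddSubgroup M)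
    (r w : M) (hr : r ^ 3 = r + 1) (hw : w ^ 2 + w + 1 = 0) (ξ : S6 O)
    (h : ∀ y : O, (y = ξ.a0.re ∨ y = ξ.a0.im ∨ y = ξ.a1.re ∨ y = ξ.a1.im ∨ y = ξ.a2.re ∨ y = ξ.a2.im) →
      i y ∈ S ∧ i y * w ∈ S ∧ i y * r ∈ S ∧ i y * w * r ∈ S ∧ i y * r ^ 2 ∈ S ∧ i y * w * r ^ 2 ∈ S) :
    S6.ev (i.comp O.subtype) r w hr hw ξ ∈ S := by
  rw [S6.ev_apply]
  simp only [RingHom.comp_apply, add_mul]
  have e1 := h _ (Or.inl rfl)
  have e2 := h _ (Or.inr (Or.inl rfl))
  have e3 := h _ (Or.inr (Or.inr (Or.inl rfl)))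
  have e4 := h _ (Or.inr (Or.inr (Or.inr (Or.inl rfl))))
  have e5 := h _ (Or.inr (Or.inr (Or.inr (Or.inr (Or.inl rfl)))))
  have e6 := h _ (Or.inr (Or.inr (Or.inr (Or.inr (Or.inr rfl)))))
  exact S.add_mem (S.add_mem (S.add_mem e1.1 e2.2.1) (S.add_mem e3.2.2.1 e4.2.2.2.1))
    (S.add_mem e5.2.2.2.2.1 e6.2.2.2.2.2)

theorem tUni : UniStmt := by
  intro L M k _ _ _ i O V hV π hsurj hπ hfld r w hr hw ξ
  have hrV := uni_r V hr
  have hwV := uni_w V hw
  have hmem : ∀ ξ : S6 O, S6.ev (i.comp O.subtype) r w hr hw ξ ∈ V := by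
    intro ξ
    refine uni_ev i O V.toSubring.toAddSubgroup r w hr hw ξ ?_
    intro y _
    have h1 : i y ∈ V := (hV.iff y).2 y.2
    have h2 : r ^ 2 ∈ V := pow_mem hrV 2
    have h3 : i y * w ∈ V := mul_mem h1 hwV
    have h4 : i y * r ∈ V := mul_mem h1 hrV
    have h5 : i y * w * r ∈ V := mul_mem h3 hrV
    have h6 : i y * r ^ 2 ∈ V := mul_mem h1 h2
    have h7 : i y * w * r ^ 2 ∈ V := mul_mem h3 h2
    exact ⟨h1, h3, h4, h5, h6, h7⟩
  have hnon : ∀ y : O, π y = 0 → i y ∈ V.nonunits := by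
    intro y hy
    rw [hπ, ValuationSubring.mem_nonunits_iff_or] at hy
    rw [ValuationSubring.mem_nonunits_iff_or]
    rcases hy with hy | hy
    · exact Or.inl (by rw [hy, map_zero])
    · refine Or.inr ?_
      rw [← map_inv₀, hV.iff]
      exact hy
  have hback : ∀ ξ : S6 O, S6.map π ξ = 0 → S6.ev (i.comp O.subtype) r w hr hw ξ ∈ V.nonunits := by
    intro ξ hξ
    have c0 : π ξ.a0.re = 0 := congrArg (fun x : S6 k => x.a0.re) hξ
    have c1 : π ξ.a0.im = 0 := congrArg (fun x : S6 k => x.a0.im) hξ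
    have c2 : π ξ.a1.re = 0 := congrArg (fun x : S6 k => x.a1.re) hξ
    have c3 : π ξ.a1.im = 0 := congrArg (fun x : S6 k => x.a1.im) hξ
    have c4 : π ξ.a2.re = 0 := congrArg (fun x : S6 k => x.a2.re) hξ
    have c5 : π ξ.a2.im = 0 := congrArg (fun x : S6 k => x.a2.im) hξ
    refine uni_ev i O V.nonunits.toAddSubgroup r w hr hw ξ ?_
    intro y hy
    have hy0 : π y = 0 := by
      rcases hy with h | h | h | h | h | h <;> rw [h] <;> assumption
    have h1 := hnon y hy0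
    have h2 : r ^ 2 ∈ V := pow_mem hrV 2
    have hm : ∀ {a b : M}, a ∈ V.nonunits → b ∈ V → a * b ∈ V.nonunits := by
      intro a b ha hb
      rw [mul_comm]
      exact uni_mul V hb ha
    exact ⟨h1, hm h1 hwV, hm h1 hrV, hm (hm h1 hwV) hrV, hm h1 h2, hm (hm h1 hwV) h2⟩
  refine ⟨hmem ξ, fun h => ?_, hback ξ⟩
  by_contra hne
  obtain ⟨η', hη'⟩ := hfld.mul_inv_cancel hne
  -- lift
  choose lift hlift using hsurj
  obtain ⟨η, hη⟩ : ∃ η : S6 O, S6.map π η = η' := by
    refine ⟨⟨⟨lift η'.a0.re, lift η'.a0.im⟩, ⟨lift η'.a1.re, lift η'.a1.im⟩, ⟨lift η'.a2.re, lift η'.a2.im⟩⟩, ?_⟩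
    apply Cub.ext
    · exact Eis.ext (hlift _) (hlift _)
    · exact Eis.ext (hlift _) (hlift _)
    · exact Eis.ext (hlift _) (hlift _)
  have h1 : S6.map π (ξ * η - 1) = 0 := by
    rw [map_sub, map_mul, hη, hη', map_one, sub_self]
  have h2 := hback _ h1
  rw [map_sub, map_mul, map_one] at h2
  have h3 : S6.ev (i.comp O.subtype) r w hr hw ξ * S6.ev (i.comp O.subtype) r w hr hw η ∈ V.nonunits := by
    rw [mul_comm]
    exact uni_mul V (hmem η) h
  have h4 := sub_mem h3 h2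
  rw [sub_sub_cancel] at h4
  exact uni_one V h4

end MP9f7b43.O
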