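import Pool.Agent.Lib.MP_9f7b43_nt.O.Spec

/-!
# MP_9f7b43_nt, part O, module Wtd: factors of polynomials with property Wt
-/

namespace MP9f7b43.O

open C31 MP9f7b43.L Polynomial

/-- `k[S] → k[T][Z]`, `S ↦ T Z`. -/
noncomputable def wtd_psi (k : Type) [Field k] : Polynomial k →+* Polynomial (Polynomial k) :=
  eval₂RingHom (C.comp C) (C X * X)

/-- `k[S][Y] → k[T][Z]`, `S ↦ T Z`, `Y ↦ Z`. -/
noncomputable def wtd_theta (k : Type) [Field k] :
    Polynomial (Polynomial k) →+* Polynomial (Polynomial k) :=
  eval₂RingHom (wtd_psi k) X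

theorem wtd_psi_coeff (k : Type) [Field k] (p : Polynomial k) (m i : ℕ) :
    ((wtd_psi k p).coeff m).coeff i = if i = m then p.coeff i else 0 := by
  induction p using Polynomial.induction_on' with
  | add p q hp hq =>
    rw [map_add, coeff_add, coeff_add, hp, hq, coeff_add]
    split_ifs <;> simp
  | monomial n a =>
    have h1 : wtd_psi k (monomial n a) = C (C a * X ^ n) * X ^ n := by
      unfold wtd_psi
      rw [coe_eval₂RingHom, eval₂_monomial, mul_pow, ← C_pow, C_mul]
      simp only [RingHom.comp_apply]
      ring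
    rw [h1, coeff_C_mul_X_pow, coeff_monomial]
    by_cases hm : m = n
    · rw [if_pos hm, coeff_C_mul_X_pow]
      subst hm
      by_cases hi : i = m
      · rw [if_pos hi, if_pos hi, if_pos hi.symm]
      · rw [if_neg hi, if_neg hi]
    · rw [if_neg hm, coeff_zero]
      by_cases hi : i = m
      · rw [if_pos hi, if_neg]
        intro h
        exact hm (hi ▸ h.symm)
      · rw [if_neg hi]

theorem wtd_theta_coeff (k : Type) [Field k] (P : Polynomial (Polynomial k)) (m i : ℕ) :
    ((wtd_theta k P).coeff m).coeff i = if i ≤ m then (P.coeff (m - i)).coeff i else 0 := by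
  induction P using Polynomial.induction_on' with
  | add p q hp hq =>
    rw [map_add, coeff_add, coeff_add, hp, hq, coeff_add]
    split_ifs <;> simp
  | monomial n a =>
    have h1 : wtd_theta k (monomial n a) = wtd_psi k a * X ^ n := by
      unfold wtd_theta
      rw [coe_eval₂RingHom, eval₂_monomial]
    rw [h1, coeff_mul_X_pow']
    by_cases hn : n ≤ m
    · rw [if_pos hn, wtd_psi_coeff]
      by_cases hi : i ≤ m
      · rw [if_pos hi, coeff_monomial]
        by_cases h : i = m - n
        · rw [if_pos h, if_pos (by omega)]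
        · rw [if_neg h, if_neg (by omega), coeff_zero]
      · rw [if_neg hi, if_neg (by omega)]
    · rw [if_neg hn, coeff_zero]
      by_cases hi : i ≤ m
      · rw [if_pos hi, coeff_monomial, if_neg (by omega), coeff_zero]
      · rw [if_neg hi]

theorem wtd_lower (k : Type) [Field k] (P : Polynomial (Polynomial k)) (j : ℕ)
    (hj : P.coeff j ≠ 0) : (P.coeff j).natDegree + j ≤ (wtd_theta k P).natDegree := by
  apply le_natDegree_of_ne_zero
  intro h
  have h1 := wtd_theta_coeff k P ((P.coeff j).natDegree + j) (P.coeff j).natDegree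
  rw [h, coeff_zero, if_pos (Nat.le_add_right _ _), Nat.add_sub_cancel_left] at h1
  exact hj (leadingCoeff_eq_zero.mp h1.symm)

theorem wtd_upper (k : Type) [Field k] (P : Polynomial (Polynomial k)) (hP : Wt P) :
    (wtd_theta k P).natDegree ≤ P.natDegree := by
  rw [natDegree_le_iff_coeff_eq_zero]
  intro m hm
  ext i
  rw [wtd_theta_coeff, coeff_zero]
  split_ifs with hi
  · by_contra h
    have h0 : P.coeff (m - i) ≠ 0 := by
      intro h0
      rw [h0, coeff_zero] at h
      exact h rfl
    have h1 := hP _ h0
    have h2 := le_natDegree_of_ne_zero h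
    omega
  · rfl

theorem tWtd : WtdStmt := by
  intro k _ G Q hG hQ hW
  have h1 := wtd_upper k _ hW
  rw [hG.natDegree_mul hQ, map_mul] at h1
  have hg : G.natDegree ≤ (wtd_theta k G).natDegree := by
    have := wtd_lower k G G.natDegree (by rw [hG.coeff_natDegree]; exact one_ne_zero)
    omega
  have hq : Q.natDegree ≤ (wtd_theta k Q).natDegree := by
    have := wtd_lower k Q Q.natDegree (by rw [hQ.coeff_natDegree]; exact one_ne_zero)
    omega
  have hg0 : wtd_theta k G ≠ 0 := by
    intro h
    have h2 := wtd_theta_coeff k G G.natDegree 0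
    rw [h] at h2
    simp [hG.coeff_natDegree] at h2
  have hq0 : wtd_theta k Q ≠ 0 := by
    intro h
    have h2 := wtd_theta_coeff k Q Q.natDegree 0
    rw [h] at h2
    simp [hQ.coeff_natDegree] at h2
  rw [natDegree_mul hg0 hq0] at h1
  intro j hj
  have h3 := wtd_lower k G j hj
  omega

end MP9f7b43.O
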