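import Pool.Agent.Lib.MP_9f7b43_nt.O.Main
import Pool.Agent.Lib.MP_9f7b43_nt.O.Gen
import Pool.Agent.Lib.MP_9f7b43_nt.O.Abv
import Pool.Agent.Lib.MP_9f7b43_nt.O.Aff
import Pool.Agent.Lib.MP_9f7b43_nt.O.Bas
import Pool.Agent.Lib.MP_9f7b43_nt.O.Cnt
import Pool.Agent.Lib.MP_9f7b43_nt.O.Deg
import Pool.Agent.Lib.MP_9f7b43_nt.O.Fld
import Pool.Agent.Lib.MP_9f7b43_nt.O.Hom
import Pool.Agent.Lib.MP_9f7b43_nt.O.Ide
import Pool.Agent.Lib.MP_9f7b43_nt.O.Irr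
import Pool.Agent.Lib.MP_9f7b43_nt.O.Loc
import Pool.Agent.Lib.MP_9f7b43_nt.O.Pad
import Pool.Agent.Lib.MP_9f7b43_nt.O.Pdg
import Pool.Agent.Lib.MP_9f7b43_nt.O.Pev
import Pool.Agent.Lib.MP_9f7b43_nt.O.Pnt
import Pool.Agent.Lib.MP_9f7b43_nt.O.Res
import Pool.Agent.Lib.MP_9f7b43_nt.O.Tfr
import Pool.Agent.Lib.MP_9f7b43_nt.O.Trs
import Pool.Agent.Lib.MP_9f7b43_nt.O.Uni
import Pool.Agent.Lib.MP_9f7b43_nt.O.Wtd

/-!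
# MP_9f7b43_nt, part O: Theorem O
-/

namespace MP9f7b43.O

/-- Theorem O (the interface statement `OStmt` of part L). -/
theorem oStmt : MP9f7b43.L.OStmt :=
  tMain (tGen tHom tTrs tWtd tPdg tPev) tFld tRes tDeg tUni (tTfr tUni) tPad tIrr tCnt
    (tLoc tIde) (tAff tIde) tBas tAbv tPnt

end MP9f7b43.O
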