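import Pool.Agent.Lib.MP_9f7b43_nt.Data
import Pool.Agent.Lib.MP_9f7b43_nt.L.Defs

/-!
# MP_9f7b43_nt, part O: definitions

`Eis R = R[ω]/(ω² + ω + 1)` and `S6 R = Cub (Eis R) = R[ρ, ω]/(ρ³ - ρ - 1, ω² + ω + 1)`, with
functoriality and evaluation maps. `S6 ℚ` is the field `ℚ(ρ, ω)` of degree `6`.
-/

namespace MP9f7b43.O

open C31

/-- `R[ω]/(ω² + ω + 1)`: elements `re + im ω`. -/
@[ext] structure Eis (R : Type*) where
  re : R
  im : R

namespace Eis

variable {R : Type*} [CommRing R]

instance : Zero (Eis R) := ⟨⟨0, 0⟩⟩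
instance : One (Eis R) := ⟨⟨1, 0⟩⟩
instance : Add (Eis R) := ⟨fun x y => ⟨x.re + y.re, x.im + y.im⟩⟩
instance : Neg (Eis R) := ⟨fun x => ⟨-x.re, -x.im⟩⟩
instance : Sub (Eis R) := ⟨fun x y => ⟨x.re - y.re, x.im - y.im⟩⟩
instance : Mul (Eis R) := ⟨fun x y =>
  ⟨x.re * y.re - x.im * y.im, x.re * y.im + x.im * y.re - x.im * y.im⟩⟩
instance : SMul ℕ (Eis R) := ⟨fun n x => ⟨n • x.re, n • x.im⟩⟩
instance : SMul ℤ (Eis R) := ⟨fun n x => ⟨n • x.re, n • x.im⟩⟩
instance : NatCast (Eis R) := ⟨fun n => ⟨n, 0⟩⟩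
instance : IntCast (Eis R) := ⟨fun n => ⟨n, 0⟩⟩

@[simp] theorem zero_re : (0 : Eis R).re = 0 := rfl
@[simp] theorem zero_im : (0 : Eis R).im = 0 := rfl
@[simp] theorem one_re : (1 : Eis R).re = 1 := rfl
@[simp] theorem one_im : (1 : Eis R).im = 0 := rfl
@[simp] theorem add_re (x y : Eis R) : (x + y).re = x.re + y.re := rfl
@[simp] theorem add_im (x y : Eis R) : (x + y).im = x.im + y.im := rfl
@[simp] theorem neg_re (x : Eis R) : (-x).re = -x.re := rfl
@[simp] theorem neg_im (x : Eis R) : (-x).im = -x.im := rfl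
@[simp] theorem sub_re (x y : Eis R) : (x - y).re = x.re - y.re := rfl
@[simp] theorem sub_im (x y : Eis R) : (x - y).im = x.im - y.im := rfl
@[simp] theorem mul_re (x y : Eis R) : (x * y).re = x.re * y.re - x.im * y.im := rfl
@[simp] theorem mul_im (x y : Eis R) :
    (x * y).im = x.re * y.im + x.im * y.re - x.im * y.im := rfl
@[simp] theorem nsmul_re (n : ℕ) (x : Eis R) : (n • x).re = n • x.re := rfl
@[simp] theorem nsmul_im (n : ℕ) (x : Eis R) : (n • x).im = n • x.im := rfl
@[simp] theorem zsmul_re (n : ℤ) (x : Eis R) : (n • x).re = n • x.re := rfl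
@[simp] theorem zsmul_im (n : ℤ) (x : Eis R) : (n • x).im = n • x.im := rfl
@[simp] theorem natCast_re (n : ℕ) : ((n : Eis R)).re = n := rfl
@[simp] theorem natCast_im (n : ℕ) : ((n : Eis R)).im = 0 := rfl
@[simp] theorem intCast_re (n : ℤ) : ((n : Eis R)).re = n := rfl
@[simp] theorem intCast_im (n : ℤ) : ((n : Eis R)).im = 0 := rfl

instance instCommRing : CommRing (Eis R) where
  add_assoc x y z := by ext <;> simp [add_assoc]
  zero_add x := by ext <;> simp
  add_zero x := by ext <;> simp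
  add_comm x y := by ext <;> simp [add_comm]
  mul_assoc x y z := by ext <;> simp <;> ring
  one_mul x := by ext <;> simp
  mul_one x := by ext <;> simp
  left_distrib x y z := by ext <;> simp <;> ring
  right_distrib x y z := by ext <;> simp <;> ring
  zero_mul x := by ext <;> simp
  mul_zero x := by ext <;> simp
  mul_comm x y := by ext <;> simp <;> ring
  neg_add_cancel x := by ext <;> simp
  sub_eq_add_neg x y := by ext <;> simp [sub_eq_add_neg]
  nsmul := fun n x => n • x
  nsmul_zero x := by ext <;> simp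
  nsmul_succ n x := by ext <;> simp [add_mul]
  zsmul := fun n x => n • x
  zsmul_zero' x := by ext <;> simp
  zsmul_succ' n x := by ext <;> simp [add_mul]
  zsmul_neg' n x := by
    ext <;> simp <;> ring
  natCast_zero := by ext <;> simp
  natCast_succ n := by ext <;> simp
  intCast_ofNat n := by ext <;> simp
  intCast_negSucc n := by ext <;> simp

@[simp] theorem ofNat_re (n : ℕ) [n.AtLeastTwo] : (OfNat.ofNat n : Eis R).re = OfNat.ofNat n := rfl
@[simp] theorem ofNat_im (n : ℕ) [n.AtLeastTwo] : (OfNat.ofNat n : Eis R).im = 0 := rfl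

/-- The element `ω`. -/
def om (R : Type*) [CommRing R] : Eis R := ⟨0, 1⟩

@[simp] theorem om_re : (om R).re = 0 := rfl
@[simp] theorem om_im : (om R).im = 1 := rfl

theorem om_rel : om R ^ 2 + om R + 1 = 0 := by
  ext <;> simp [pow_succ]

/-- Constants. -/
def C : R →+* Eis R where
  toFun a := ⟨a, 0⟩
  map_one' := rfl
  map_zero' := rfl
  map_mul' x y := by ext <;> simp
  map_add' x y := by ext <;> simp

@[simp] theorem C_re (a : R) : (C a).re = a := rfl
@[simp] theorem C_im (a : R) : (C a).im = 0 := rfl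

theorem eq_sum (x : Eis R) : x = C x.re + C x.im * om R := by
  ext <;> simp

/-- Functoriality. -/
def map {S : Type*} [CommRing S] (f : R →+* S) : Eis R →+* Eis S where
  toFun x := ⟨f x.re, f x.im⟩
  map_one' := by ext <;> simp
  map_zero' := by ext <;> simp
  map_mul' x y := by ext <;> simp
  map_add' x y := by ext <;> simp

@[simp] theorem map_re {S : Type*} [CommRing S] (f : R →+* S) (x : Eis R) :
    (map f x).re = f x.re := rfl
@[simp] theorem map_im {S : Type*} [CommRing S] (f : R →+* S) (x : Eis R) :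
    (map f x).im = f x.im := rfl

/-- Evaluation at a root `w` of `X² + X + 1` in an extension, coefficients mapped by `f`. -/
def ev {S : Type*} [CommRing S] (f : R →+* S) (w : S) (hw : w ^ 2 + w + 1 = 0) :
    Eis R →+* S where
  toFun x := f x.re + f x.im * w
  map_one' := by simp
  map_zero' := by simp
  map_mul' x y := by
    simp only [mul_re, mul_im, map_sub, map_add, map_mul]
    linear_combination (-(f x.im * f y.im)) * hw
  map_add' x y := by
    simp only [add_re, add_im, map_add]; ring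

theorem ev_apply {S : Type*} [CommRing S] (f : R →+* S) (w : S) (hw : w ^ 2 + w + 1 = 0)
    (x : Eis R) : ev f w hw x = f x.re + f x.im * w := rfl

@[simp] theorem ev_om {S : Type*} [CommRing S] (f : R →+* S) (w : S) (hw : w ^ 2 + w + 1 = 0) :
    ev f w hw (om R) = w := by simp [ev_apply]

@[simp] theorem ev_C {S : Type*} [CommRing S] (f : R →+* S) (w : S) (hw : w ^ 2 + w + 1 = 0)
    (a : R) : ev f w hw (C a) = f a := by simp [ev_apply]

end Eis

/-- `S6 R = R[ρ, ω]/(ρ³ - ρ - 1, ω² + ω + 1)`. -/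
abbrev S6 (R : Type*) : Type _ := Cub (Eis R)

namespace S6

variable {R S T : Type*} [CommRing R] [CommRing S] [CommRing T]

/-- The element `ω` of `S6 R`. -/
def om (R : Type*) [CommRing R] : S6 R := Cub.C (Eis.om R)

theorem om_rel : om R ^ 2 + om R + 1 = 0 := by
  have h := congrArg (Cub.C (R := Eis R)) (Eis.om_rel (R := R))
  rw [map_add, map_add, map_pow, map_one, map_zero] at h
  exact h

/-- Functoriality. -/
def map (f : R →+* S) : S6 R →+* S6 S := Cub.map (Eis.map f)

@[simp] theorem map_om (f : R →+* S) : map f (om R) = om S := by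
  unfold map om
  ext <;> simp

@[simp] theorem map_rho (f : R →+* S) : map f (Cub.rho (Eis R)) = Cub.rho (Eis S) := by
  unfold map
  ext <;> simp

theorem map_comp (g : S →+* T) (f : R →+* S) : map (g.comp f) = (map g).comp (map f) := rfl

/-- Evaluation at `ρ = r`, `ω = w`, coefficients mapped by `f`. -/
def ev (f : R →+* S) (r w : S) (hr : r ^ 3 = r + 1) (hw : w ^ 2 + w + 1 = 0) : S6 R →+* S :=
  Cub.ev (Eis.ev f w hw) r hr

theorem ev_apply (f : R →+* S) (r w : S) (hr : r ^ 3 = r + 1) (hw : w ^ 2 + w + 1 = 0)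
    (x : S6 R) : ev f r w hr hw x = (f x.a0.re + f x.a0.im * w) + (f x.a1.re + f x.a1.im * w) * r +
      (f x.a2.re + f x.a2.im * w) * r ^ 2 := rfl

@[simp] theorem ev_om (f : R →+* S) (r w : S) (hr : r ^ 3 = r + 1) (hw : w ^ 2 + w + 1 = 0) :
    ev f r w hr hw (om R) = w := by
  simp [ev_apply, om]

@[simp] theorem ev_rho (f : R →+* S) (r w : S) (hr : r ^ 3 = r + 1) (hw : w ^ 2 + w + 1 = 0) :
    ev f r w hr hw (Cub.rho (Eis R)) = r := by
  simp [ev_apply]

theorem ev_map (g : S →+* T) (f : R →+* S) (r w : T) (hr : r ^ 3 = r + 1)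
    (hw : w ^ 2 + w + 1 = 0) (x : S6 R) : ev g r w hr hw (map f x) = ev (g.comp f) r w hr hw x :=
  rfl

theorem map_ev (g : S →+* T) (f : R →+* S) (r w : S) (hr : r ^ 3 = r + 1)
    (hw : w ^ 2 + w + 1 = 0) (hr' : g r ^ 3 = g r + 1) (hw' : g w ^ 2 + g w + 1 = 0) (x : S6 R) :
    g (ev f r w hr hw x) = ev (g.comp f) (g r) (g w) hr' hw' x := by
  simp [ev_apply]

end S6

/-- The prime `ϖ = -1 - 3ω` above `7`, in terms of `ω = w`. -/
def vp {R : Type*} [CommRing R] (w : R) : R := -1 - 3 * w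

/-- The conjugate prime `ϖ' = 2 + 3ω`. -/
def vq {R : Type*} [CommRing R] (w : R) : R := 2 + 3 * w

theorem map_vp {R S : Type*} [CommRing R] [CommRing S] (f : R →+* S) (w : R) :
    f (vp w) = vp (f w) := by simp [vp, map_ofNat]

theorem map_vq {R S : Type*} [CommRing R] [CommRing S] (f : R →+* S) (w : R) :
    f (vq w) = vq (f w) := by simp [vq, map_ofNat]

/-- `X = u + v ω`. -/
def cX {R : Type*} [CommRing R] (u v w : R) : R := u + v * w

/-- `X' = u + v ω²`. -/
def cX' {R : Type*} [CommRing R] (u v w : R) : R := u - v - v * w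

/-- The third coordinate after the Geiser involution. -/
def cZ {R : Type*} [CommRing R] (u v z : R) : R := -(z + (u ^ 2 - u * v + v ^ 2) + 56)

/-- The denominator of `s`. -/
def cD {R : Type*} [CommRing R] (u v z w : R) : R :=
  cX u v w * cX' u v w - w * (cZ u v z + 7 * (3 - 2 * w))

/-- `s = P₁ / P₀`. -/
noncomputable def cs {M : Type*} [Field M] (u v z w : M) : M :=
  ((3 + 2 * w) * cX u v w - cX' u v w ^ 2) / cD u v z w

/-- `y = R / P₀`. -/
noncomputable def cy {M : Type*} [Field M] (u v z w : M) : M :=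
  cs u v z w * cX u v w + cX' u v w

/-- `W(s, y) = ϖ + ϖ' s³ - s y`: the nodal cubic. -/
def cW {R : Type*} [CommRing R] (w s y : R) : R := vp w + vq w * s ^ 3 - s * y

end MP9f7b43.O
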