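import Pool.Agent.Lib.MP_9f7b43_nt.O.Spec

/-!
# MP_9f7b43_nt, part O, module Irr: irreducibility of `q X ^ 3 - c p`
-/

namespace MP9f7b43.O

open Polynomial

/-- The polynomial `q X ^ 3 - d` has degree `3` if `q ≠ 0`. -/
theorem irr_natDegree {E : Type} [Field E] (q d : E) (hq : q ≠ 0) :
    (C q * X ^ 3 - C d : Polynomial E).natDegree = 3 := by
  have h1 : (C q * X ^ 3 : Polynomial E).natDegree = 3 := natDegree_C_mul_X_pow 3 q hq
  rw [natDegree_sub_C, h1]

theorem tIrr : IrrStmt := by
  intro E _ v p q c hv hp hq hc hvp hvq hvc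
  have hdeg := irr_natDegree q (c * p) hq
  refine Polynomial.irreducible_of_degree_le_three_of_not_isRoot ?_ ?_
  · rw [hdeg]
    decide
  · intro x hx
    rw [IsRoot.def] at hx
    have h1 : q * x ^ 3 = c * p := by
      have h2 : q * x ^ 3 - c * p = 0 := by
        simpa using hx
      exact sub_eq_zero.mp h2
    have hcp : c * p ≠ 0 := mul_ne_zero hc hp
    have hx0 : x ≠ 0 := by
      rintro rfl
      apply hcp
      rw [← h1]
      simp
    have hx2 : x * x ≠ 0 := mul_ne_zero hx0 hx0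
    have hx3 : x * x * x ≠ 0 := mul_ne_zero hx2 hx0
    have h3 : v (q * (x * x * x)) = v (c * p) := by
      rw [← h1]
      congr 1
      ring
    rw [hv _ _ hq hx3, hv _ _ hx2 hx0, hv _ _ hx0 hx0, hv _ _ hc hp, hvp, hvq, hvc] at h3
    omega

end MP9f7b43.O
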