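import Pool.Agent.Lib.MP_9f7b43_nt.O.Spec
import Pool.Agent.Lib.MP_9f7b43_nt.O.Nu

/-!
# MP_9f7b43_nt, part O: assembly of Theorem O
-/

namespace MP9f7b43.O

open C31 MP9f7b43.L Polynomial

/-- an element of `S6 O` -/
def main_el {R : Type} [CommRing R] (a b : Fin 3 → R) : S6 R :=
  ⟨⟨a 0, b 0⟩, ⟨a 1, b 1⟩, ⟨a 2, b 2⟩⟩

theorem main_el_map {R S : Type} [CommRing R] [CommRing S] (π : R →+* S) (a b : Fin 3 → R)
    (h : S6.map π (main_el a b) = 0) (l : Fin 3) : π (a l) = 0 ∧ π (b l) = 0 := by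
  have h0 := congrArg Cub.a0 h
  have h1 := congrArg Cub.a1 h
  have h2 := congrArg Cub.a2 h
  simp only [S6.map, main_el, Cub.map_a0, Cub.map_a1, Cub.map_a2, Cub.zero_a0, Cub.zero_a1,
    Cub.zero_a2] at h0 h1 h2
  have h0a := congrArg Eis.re h0
  have h0b := congrArg Eis.im h0
  have h1a := congrArg Eis.re h1
  have h1b := congrArg Eis.im h1
  have h2a := congrArg Eis.re h2
  have h2b := congrArg Eis.im h2
  fin_cases l
  · exact ⟨h0a, h0b⟩
  · exact ⟨h1a, h1b⟩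
  · exact ⟨h2a, h2b⟩

theorem main_el_ev {R M : Type} [CommRing R] [CommRing M] (f : R →+* M) (r w : M)
    (hr : r ^ 3 = r + 1) (hw : w ^ 2 + w + 1 = 0) (a b : Fin 3 → R) :
    S6.ev f r w hr hw (main_el a b) = (f (a 0) + f (b 0) * w) + (f (a 1) + f (b 1) * w) * r +
      (f (a 2) + f (b 2) * w) * r ^ 2 := rfl

/-- A valuation ring of `M` over `ℚ` which does not contain all coordinates lies over `O`. -/
theorem main_over {L M : Type} [Field L] [Algebra ℚ L] [Field M] (i : L →+* M) (x : I9 → L)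
    (O : ValuationSubring L)
    (huniq : ∀ V : ValuationSubring L, (∀ q : ℚ, algebraMap ℚ L q ∈ V) → (∃ i, x i ∉ V) → V = O)
    (V : ValuationSubring M) (hQ : ∀ q : ℚ, i (algebraMap ℚ L q) ∈ V) (hx : ∃ j, i (x j) ∉ V) :
    Over i O V := by
  have h : V.comap i = O := by
    apply huniq
    · intro q
      rw [ValuationSubring.mem_comap]
      exact hQ q
    · obtain ⟨j, hj⟩ := hx
      exact ⟨j, fun hc => hj (ValuationSubring.mem_comap.1 hc)⟩
  constructor
  intro y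
  rw [← h, ValuationSubring.mem_comap]

theorem main_over_nu {L M : Type} [Field L] [Field M] (i : L →+* M) (O : ValuationSubring L)
    (V : ValuationSubring M) (hV : Over i O V) {y : L} (hy : y ∈ O.nonunits) :
    i y ∈ V.nonunits := by
  rw [ValuationSubring.mem_nonunits_iff_or] at hy ⊢
  rcases hy with rfl | hy
  · left
    exact map_zero i
  · right
    rw [← map_inv₀, hV.iff]
    exact hy

/-- roots of unity etc. lie in `V` -/
theorem main_r_mem {M : Type} [Field M] (V : ValuationSubring M) (r : M) (hr : r ^ 3 = r + 1) :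
    r ∈ V := by
  by_contra h
  have h1 : r⁻¹ ∈ V.nonunits := by
    rw [V.mem_nonunits_iff_or, inv_inv]
    exact Or.inr h
  have hr0 : r ≠ 0 := by
    rintro rfl
    exact h V.zero_mem
  apply nu_one V
  have h2 : (1 : M) = r⁻¹ * r⁻¹ + r⁻¹ * (r⁻¹ * r⁻¹) := by
    field_simp
    linear_combination hr
  rw [h2]
  exact nu_add V (V.nonunits.mul_mem h1 h1) (V.nonunits.mul_mem h1 (V.nonunits.mul_mem h1 h1))

theorem main_w_mem {M : Type} [Field M] (V : ValuationSubring M) (w : M)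
    (hw : w ^ 2 + w + 1 = 0) : w ∈ V := by
  by_contra h
  have h1 : w⁻¹ ∈ V.nonunits := by
    rw [V.mem_nonunits_iff_or, inv_inv]
    exact Or.inr h
  have hw0 : w ≠ 0 := by
    rintro rfl
    exact h V.zero_mem
  apply nu_one V
  have h2 : (1 : M) = -(w⁻¹ + w⁻¹ * w⁻¹) := by
    field_simp
    linear_combination hw
  rw [h2]
  exact nu_neg V (nu_add V h1 (V.nonunits.mul_mem h1 h1))

/-- The data of Theorem O at a valuation ring over `O`. -/
theorem main_loc (hUni : UniStmt) (hLoc : LocStmt) {L M k : Type} [Field L] [Field M] [Field k]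
    (i : L →+* M) (x : I9 → L) (O : ValuationSubring L) (π : O →+* k)
    (hπ : Function.Surjective π) (hπ0 : ∀ y : O, π y = 0 ↔ (y : L) ∈ O.nonunits)
    (hk : IsField (S6 k)) (r w : M) (hr : r ^ 3 = r + 1) (hw : w ^ 2 + w + 1 = 0)
    (hF : Faff (pt i r x 0) (pt i r x 1) (pt i r x 2) = 0)
    (e : L) (he0 : e ≠ 0) (heO : e ∈ O.nonunits) (hu : ∀ l : Fin 3, e * x (0, l) ∈ O)
    (hv : ∀ l : Fin 3, e * x (1, l) ∈ O) (hz : ∀ l : Fin 3, e ^ 2 * x (2, l) ∈ O)
    (huv : ∃ l : Fin 3, e * x (0, l) ∉ O.nonunits ∨ e * x (1, l) ∉ O.nonunits)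
    (hz2 : ∃ l : Fin 3, e ^ 2 * x (2, l) ∉ O.nonunits) :
    ∃ ξ₁ ξ₂ : S6 O, S6.map π ξ₁ ≠ 0 ∧ (∀ (V : ValuationSubring M) (_ : Over i O V),
      cD (pt i r x 0) (pt i r x 1) (pt i r x 2) w ≠ 0 ∧
      cs (pt i r x 0) (pt i r x 1) (pt i r x 2) w ∈ V ∧
      cy (pt i r x 0) (pt i r x 1) (pt i r x 2) w ∈ V ∧
      cW w (cs (pt i r x 0) (pt i r x 1) (pt i r x 2) w)
        (cy (pt i r x 0) (pt i r x 1) (pt i r x 2) w) ∈ V.nonunits ∧
      cs (pt i r x 0) (pt i r x 1) (pt i r x 2) w * S6.ev (i.comp O.subtype) r w hr hw ξ₁ +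
        S6.ev (i.comp O.subtype) r w hr hw ξ₂ ∈ V.nonunits) := by
  let a : Fin 3 → O := fun l => ⟨e * x (0, l), hu l⟩
  let b : Fin 3 → O := fun l => ⟨e * x (1, l), hv l⟩
  let c : Fin 3 → O := fun l => ⟨e ^ 2 * x (2, l), hz l⟩
  let ξ₁ : S6 O := main_el a b
  let ξ₂ : S6 O := main_el (fun l => a l - b l) (fun l => -b l)
  let ξ₃ : S6 O := main_el c (fun _ => 0)
  let ξ₄ : S6 O := main_el a (fun _ => 0)
  let ξ₅ : S6 O := main_el b (fun _ => 0)
  have ne1 : S6.map π ξ₁ ≠ 0 := by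
    intro h
    obtain ⟨l, hl⟩ := huv
    obtain ⟨h1, h2⟩ := main_el_map π _ _ h l
    rcases hl with hl | hl
    · exact hl ((hπ0 (a l)).1 h1)
    · exact hl ((hπ0 (b l)).1 h2)
  have ne2 : S6.map π ξ₂ ≠ 0 := by
    intro h
    obtain ⟨l, hl⟩ := huv
    obtain ⟨h1, h2⟩ := main_el_map π _ _ h l
    rw [map_sub] at h1
    rw [map_neg, neg_eq_zero] at h2
    rw [h2, sub_zero] at h1
    rcases hl with hl | hl
    · exact hl ((hπ0 (a l)).1 h1)
    · exact hl ((hπ0 (b l)).1 h2)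
  have ne3 : S6.map π ξ₃ ≠ 0 := by
    intro h
    obtain ⟨l, hl⟩ := hz2
    obtain ⟨h1, _⟩ := main_el_map π _ _ h l
    exact hl ((hπ0 (c l)).1 h1)
  refine ⟨ξ₁, ξ₂, ne1, ?_⟩
  intro V hV
  have U1 := hUni L M k i O V hV π hπ hπ0 hk r w hr hw ξ₁
  have U2 := hUni L M k i O V hV π hπ hπ0 hk r w hr hw ξ₂
  have U3 := hUni L M k i O V hV π hπ hπ0 hk r w hr hw ξ₃
  have U4 := hUni L M k i O V hV π hπ hπ0 hk r w hr hw ξ₄
  have U5 := hUni L M k i O V hV π hπ hπ0 hk r w hr hw ξ₅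
  have e1 : S6.ev (i.comp O.subtype) r w hr hw ξ₁ = i e * cX (pt i r x 0) (pt i r x 1) w := by
    simp only [ξ₁, a, b, main_el_ev, pt, cX, RingHom.comp_apply, ValuationSubring.subtype_apply,
      map_mul]
    ring
  have e2 : S6.ev (i.comp O.subtype) r w hr hw ξ₂ = i e * cX' (pt i r x 0) (pt i r x 1) w := by
    simp only [ξ₂, a, b, main_el_ev, pt, cX', RingHom.comp_apply, ValuationSubring.subtype_apply,
      map_mul, map_sub, map_neg]
    ring
  have e3 : S6.ev (i.comp O.subtype) r w hr hw ξ₃ = i e ^ 2 * pt i r x 2 := by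
    simp only [ξ₃, c, main_el_ev, pt, RingHom.comp_apply, ValuationSubring.subtype_apply,
      map_mul, map_pow, map_zero]
    ring
  have e4 : S6.ev (i.comp O.subtype) r w hr hw ξ₄ = i e * pt i r x 0 := by
    simp only [ξ₄, a, main_el_ev, pt, RingHom.comp_apply, ValuationSubring.subtype_apply,
      map_mul, map_zero]
    ring
  have e5 : S6.ev (i.comp O.subtype) r w hr hw ξ₅ = i e * pt i r x 1 := by
    simp only [ξ₅, b, main_el_ev, pt, RingHom.comp_apply, ValuationSubring.subtype_apply,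
      map_mul, map_zero]
    ring
  rw [e1] at U1 ⊢
  rw [e2] at U2 ⊢
  rw [e3] at U3
  rw [e4] at U4
  rw [e5] at U5
  have hie : i e ≠ 0 := by
    rw [Ne, map_eq_zero]
    exact he0
  exact hLoc M V _ _ _ w (i e) hw hF (main_w_mem V w hw) hie (main_over_nu i O V hV heO) U4.1 U5.1
    U3.1 (fun h => ne3 (U3.2.1 h)) (fun h => ne1 (U1.2.1 h)) (fun h => ne2 (U2.2.1 h))

/-- algebraic elements lie in every valuation ring over the base field -/
theorem main_alg_mem {E M : Type} [Field E] [Field M] (ι : E →+* M) (V : ValuationSubring M)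
    (hι : ∀ q, ι q ∈ V) (t : M) (P : Polynomial E) (hP : P ≠ 0) (hPt : P.eval₂ ι t = 0) :
    t ∈ V := by
  let ιV : E →+* V := ι.codRestrict V.toSubring hι
  have hint : IsIntegral V t := by
    refine ⟨(P * C P.leadingCoeff⁻¹).map ιV, (monic_mul_leadingCoeff_inv hP).map _, ?_⟩
    have h1 : (algebraMap V M).comp ιV = ι := by
      ext q
      rfl
    rw [eval₂_map, h1, eval₂_mul, hPt, zero_mul]
  obtain ⟨y, hy⟩ := (IsIntegrallyClosed.isIntegral_iff (R := V) (K := M)).1 hint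
  rw [← hy]
  exact y.2

/-- the valuation of a polynomial associated to a given one -/
theorem main_assoc {E : Type} [Field E] (v : E → ℤ)
    (hv : ∀ a b, a ≠ 0 → b ≠ 0 → v (a * b) = v a + v b) (g P : Polynomial E)
    (h : Associated g P) (hP0 : P.coeff 0 ≠ 0)
    (hPv : 3 * v (P.coeff 0) = 3 * v P.leadingCoeff + P.natDegree) :
    3 * v (g.coeff 0) = 3 * v g.leadingCoeff + g.natDegree := by
  obtain ⟨u, hu⟩ := h
  obtain ⟨a, ha, hau⟩ := Polynomial.isUnit_iff.1 u.isUnit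
  have ha0 : a ≠ 0 := ha.ne_zero
  rw [← hau] at hu
  rw [← hu] at hPv hP0
  rw [mul_coeff_zero, coeff_C_zero] at hPv hP0
  have hg0 : g.coeff 0 ≠ 0 := left_ne_zero_of_mul hP0
  have hg : g ≠ 0 := by
    rintro rfl
    exact hg0 (by simp)
  rw [leadingCoeff_mul, leadingCoeff_C, natDegree_mul_C ha0, hv _ _ hg0 ha0,
    hv _ _ (leadingCoeff_ne_zero.2 hg) ha0] at hPv
  omega

theorem main_v_pow {E : Type} [Field E] (v : E → ℤ)
    (hv : ∀ a b, a ≠ 0 → b ≠ 0 → v (a * b) = v a + v b) (a : E) (ha : a ≠ 0) (n : ℕ) :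
    v (a ^ n) = n * v a := by
  induction n with
  | zero =>
    have h1 : v ((1 : E) * 1) = v 1 + v 1 := hv 1 1 one_ne_zero one_ne_zero
    rw [mul_one] at h1
    simp only [pow_zero, Nat.cast_zero, zero_mul]
    omega
  | succ n ih =>
    rw [pow_succ, hv _ _ (pow_ne_zero n ha) ha, ih]
    push_cast
    ring

/-- the cubic polynomials of the base points -/
noncomputable def main_P {E : Type} [Field E] (q p c : E) : Polynomial E :=
  C q * X ^ 3 - C (c * p)

theorem main_P_deg {E : Type} [Field E] (q p c : E) (hq : q ≠ 0) :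
    (main_P q p c).natDegree = 3 ∧ (main_P q p c).leadingCoeff = q ∧
      (main_P q p c).coeff 0 = -(c * p) := by
  have h1 : (main_P q p c).natDegree = 3 := by
    unfold main_P
    rw [natDegree_sub_C, natDegree_C_mul_X_pow 3 q hq]
  refine ⟨h1, ?_, ?_⟩
  · rw [leadingCoeff, h1]
    unfold main_P
    rw [coeff_sub, coeff_C_mul, coeff_X_pow, if_pos rfl, mul_one, coeff_C,
      if_neg (by norm_num), sub_zero]
  · unfold main_P
    rw [coeff_sub, coeff_C_mul, coeff_X_pow, if_neg (by norm_num), mul_zero, coeff_C_zero,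
      zero_sub]

theorem main_P_eval {E M : Type} [Field E] [Field M] (ι : E →+* M) (s : M) (q p c : E) :
    (main_P q p c).eval₂ ι s = ι q * s ^ 3 - ι c * ι p := by
  unfold main_P
  rw [eval₂_sub, eval₂_mul, eval₂_C, eval₂_X_pow, eval₂_C, map_mul]

theorem tMain (hGen : GenStmt) (hFld : FldStmt) (hRes : ResStmt) (hDeg : DegStmt)
    (hUni : UniStmt) (hTfr : TfrStmt) (hPad : PadStmt) (hIrr : IrrStmt) (hCnt : CntStmt)
    (hLoc : LocStmt) (hAff : AffStmt) (hBas : BasStmt) (hAbv : AbvStmt) (hPnt : PntStmt) :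
    OStmt := by
  intro L _ _ x _ _ hS O hQO huniq F hFfin hF2 res hresF hres0 e he0 heO hu hv hz huv hz2
  obtain ⟨k, _, _, π, j, hπ, hπ0, hkfin, hk2, hroot⟩ := hRes L O hQO F hFfin hF2 res hresF hres0
  have hk : IsField (S6 k) := hFld k j hroot
  have hQ : IsField (S6 ℚ) := by
    refine hFld ℚ (algebraMap ℚ ℝ) (fun q hq => hroot (algebraMap ℚ k q) ?_)
    rw [← map_pow, hq, map_add, map_one]
  obtain ⟨E, _, ⟨ε⟩⟩ := exists_field (S6 ℚ) hQ
  obtain ⟨K, _, ⟨κ'⟩⟩ := exists_field (S6 k) hk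
  have hcharL : CharZero L := algebraRat.charZero L
  obtain ⟨M, _, i, hcharM, hM⟩ : ∃ (M : Type) (_ : Field M) (_ : L →+* M), CharZero M ∧
      IsAlgClosed M := by
    refine ⟨AlgebraicClosure L, inferInstance, algebraMap L _, ?_, inferInstance⟩
    exact charZero_of_injective_algebraMap (algebraMap L (AlgebraicClosure L)).injective
  obtain ⟨r, hr⟩ : ∃ r : M, r ^ 3 = r + 1 := by
    obtain ⟨r, hr⟩ := IsAlgClosed.exists_root (X ^ 3 - X - 1 : Polynomial M) (by
      have : (X ^ 3 - X - 1 : Polynomial M).degree = 3 := by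
        compute_degree!
      rw [this]
      norm_num)
    refine ⟨r, ?_⟩
    simp only [IsRoot.def, eval_sub, eval_pow, eval_X, eval_one] at hr
    linear_combination hr
  obtain ⟨w, hw⟩ : ∃ w : M, w ^ 2 + w + 1 = 0 := by
    obtain ⟨w, hw⟩ := IsAlgClosed.exists_root (X ^ 2 + X + 1 : Polynomial M) (by
      have : (X ^ 2 + X + 1 : Polynomial M).degree = 2 := by
        compute_degree!
      rw [this]
      norm_num)
    refine ⟨w, ?_⟩
    simpa only [IsRoot.def, eval_add, eval_pow, eval_X, eval_one] using hw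
  have hF := hPnt L M i r x hr hS
  obtain ⟨ξ₁, ξ₂, ne1, hloc⟩ := main_loc hUni hLoc i x O π hπ hπ0 hk r w hr hw hF e he0 heO hu hv
    hz huv hz2
  obtain ⟨V0, hV0⟩ := hAbv L M i O
  obtain ⟨hD, hsV0, hyV0, hWV0, -⟩ := hloc V0 hV0
  -- the maps
  let ev : S6 ℚ →+* M := S6.ev (i.comp (algebraMap ℚ L)) r w hr hw
  let ι : E →+* M := ev.comp (ε : E →+* S6 ℚ)
  let τ : S6 ℚ →+* S6 k := S6.map (algebraMap ℚ k)
  let τE : E →+* S6 k := τ.comp (ε : E →+* S6 ℚ)
  obtain ⟨b, hb⟩ := hk.mul_inv_cancel ne1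
  obtain ⟨θ, hθ⟩ : ∃ θ : S6 k, θ * S6.map π ξ₁ + S6.map π ξ₂ = 0 :=
    ⟨-(S6.map π ξ₂ * b), by linear_combination (-(S6.map π ξ₂)) * hb⟩
  have key : ∀ V : ValuationSubring M, Over i O V → ∀ P : Polynomial E,
      P.eval₂ ι (cs (pt i r x 0) (pt i r x 1) (pt i r x 2) w) ∈ V.nonunits ↔
        P.eval₂ τE θ = 0 := by
    intro V hV P
    obtain ⟨-, h1, -, -, h2⟩ := hloc V hV
    have h3 := hTfr L M k i O hQO V hV π hπ hπ0 hk r w hr hw ξ₁ ξ₂ _ θ h1 ne1 h2 hθ
      (P.map (ε : E →+* S6 ℚ))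
    rw [eval₂_map, eval₂_map] at h3
    exact h3
  have hSk : Nontrivial (S6 k) := hk.nontrivial
  -- the minimal polynomial
  obtain ⟨μ, hμ, hμ2, hμθ'⟩ := hDeg k hkfin hk2 E ε K κ'.symm (κ'.symm θ)
  have hμθ : μ.eval₂ τE θ = 0 := by
    have h1 : μ.eval₂ ((κ'.symm : S6 k →+* K).comp τE) ((κ'.symm : S6 k →+* K) θ) = 0 := hμθ'
    rw [← hom_eval₂] at h1
    have h2 : Function.Injective (κ'.symm : S6 k →+* K) := κ'.symm.injective
    exact h2 (by rw [h1, map_zero])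
  -- the coordinates
  generalize hsdef : cs (pt i r x 0) (pt i r x 1) (pt i r x 2) w = s at *
  generalize hydef : cy (pt i r x 0) (pt i r x 1) (pt i r x 2) w = y at *
  obtain ⟨omE, homE⟩ : ∃ omE : E, ε omE = S6.om ℚ := ⟨ε.symm (S6.om ℚ), ε.apply_symm_apply _⟩
  obtain ⟨rhE, hrhE⟩ : ∃ rhE : E, ε rhE = Cub.rho (Eis ℚ) :=
    ⟨ε.symm (Cub.rho (Eis ℚ)), ε.apply_symm_apply _⟩
  have hιom : ι omE = w := by
    change ev (ε omE) = w
    rw [homE]
    exact S6.ev_om _ _ _ _ _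
  have hιrh : ι rhE = r := by
    change ev (ε rhE) = r
    rw [hrhE]
    exact S6.ev_rho _ _ _ _ _
  have hιvp : ι (vp omE) = vp w := by rw [map_vp, hιom]
  have hιvq : ι (vq omE) = vq w := by rw [map_vq, hιom]
  have hιQ : ∀ q : ℚ, ∃ a : E, ι a = i (algebraMap ℚ L q) := by
    intro q
    refine ⟨ε.symm (Cub.C (Eis.C q)), ?_⟩
    change ev (ε (ε.symm (Cub.C (Eis.C q)))) = _
    rw [ε.apply_symm_apply]
    change S6.ev (i.comp (algebraMap ℚ L)) r w hr hw (Cub.C (Eis.C q)) = _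
    simp [S6.ev_apply]
  have hpq : vp omE * vq omE = 7 := by
    apply ι.injective
    rw [map_mul, hιvp, hιvq, map_ofNat]
    unfold vp vq
    linear_combination (-9) * hw
  have h7 : (7 : E) ≠ 0 := by
    intro h
    have h1 := congrArg ι h
    rw [map_ofNat, map_zero] at h1
    exact (by norm_num : (7 : M) ≠ 0) h1
  have hp0 : vp omE ≠ 0 := by
    intro h
    rw [h, zero_mul] at hpq
    exact h7 hpq.symm
  have hq0 : vq omE ≠ 0 := by
    intro h
    rw [h, mul_zero] at hpq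
    exact h7 hpq.symm
  have hom0 : omE ≠ 0 := by
    rintro rfl
    rw [map_zero] at hιom
    rw [← hιom] at hw
    norm_num at hw
  have hom3 : omE ^ 3 = 1 := by
    apply ι.injective
    rw [map_pow, hιom, map_one]
    linear_combination (w - 1) * hw
  -- valuation rings over `E`
  have hVQ : ∀ V : ValuationSubring M, (∀ q, ι q ∈ V) → ∀ q : ℚ, i (algebraMap ℚ L q) ∈ V := by
    intro V hV q
    obtain ⟨a, ha⟩ := hιQ q
    rw [← ha]
    exact hV a
  have hιV0 : ∀ q, ι q ∈ V0 := by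
    intro q
    have hr0 : r ∈ V0 := main_r_mem V0 r hr
    have hw0 : w ∈ V0 := main_w_mem V0 w hw
    have hq0 : ∀ q : ℚ, i (algebraMap ℚ L q) ∈ V0 := fun q => (hV0.iff _).2 (hQO q)
    change S6.ev (i.comp (algebraMap ℚ L)) r w hr hw (ε q) ∈ V0
    rw [S6.ev_apply]
    refine V0.add_mem _ _ (V0.add_mem _ _ ?_ (V0.mul_mem _ _ ?_ hr0))
      (V0.mul_mem _ _ ?_ (V0.pow_mem hr0 2))
    all_goals
      exact V0.add_mem _ _ (hq0 _) (V0.mul_mem _ _ (hq0 _) hw0)
  have hpt : ∀ V : ValuationSubring M, (∀ q, ι q ∈ V) → (∀ j, i (x j) ∈ V) →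
      ∀ j, pt i r x j ∈ V := by
    intro V hV hx j
    have hr0 : r ∈ V := main_r_mem V r hr
    unfold pt
    exact V.add_mem _ _ (V.add_mem _ _ (hx _) (V.mul_mem _ _ (hx _) hr0))
      (V.mul_mem _ _ (hx _) (V.pow_mem hr0 2))
  have hdich : ∀ V : ValuationSubring M, (∀ q, ι q ∈ V) → Over i O V ∨ (∀ j, i (x j) ∈ V) := by
    intro V hV
    by_cases hx : ∀ j, i (x j) ∈ V
    · exact Or.inr hx
    · left
      push Not at hx
      exact main_over i x O huniq V (hVQ V hV) hx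
  have hnode : NoNode ι s y := by
    intro V hV hy0 hy1 hsy
    rcases hdich V hV with h | h
    · obtain ⟨-, -, hyV, -, -⟩ := hloc V h
      apply nu_one V
      rw [← mul_inv_cancel₀ hy0]
      exact nu_mul V hyV hy1
    · have h1 := (hAff M V _ _ _ w hw hF (main_w_mem V w hw) (hpt V hV h 0) (hpt V hV h 1)
        (hpt V hV h 2) hD).1
      rw [hsdef, hydef] at h1
      exact h1 hy0 hy1 hsy
  -- the valuation
  obtain ⟨v6, hv6, hvp6, hvq6⟩ := hPad hQ
  obtain ⟨v, hvdef⟩ : ∃ v : E → ℤ, ∀ a, v a = v6 (ε a) := ⟨fun a => v6 (ε a), fun _ => rfl⟩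
  have hvmul : ∀ a b, a ≠ 0 → b ≠ 0 → v (a * b) = v a + v b := by
    intro a b ha hb
    rw [hvdef, hvdef, hvdef, map_mul]
    exact hv6 _ _ (fun h => ha (ε.injective (by rw [h, map_zero])))
      (fun h => hb (ε.injective (by rw [h, map_zero])))
  have hvp : v (vp omE) = 1 := by
    have h1 : ε (vp omE) = vp (S6.om ℚ) := by
      rw [← homE]
      exact map_vp (ε : E →+* S6 ℚ) omE
    rw [hvdef, h1, hvp6]
  have hvq : v (vq omE) = 0 := by
    have h1 : ε (vq omE) = vq (S6.om ℚ) := by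
      rw [← homE]
      exact map_vq (ε : E →+* S6 ℚ) omE
    rw [hvdef, h1, hvq6]
  have hv1 : v 1 = 0 := by
    have := main_v_pow v hvmul 1 one_ne_zero 0
    simpa using this
  have hvc : v (-omE) = 0 := by
    have h1 := main_v_pow v hvmul (-omE) (neg_ne_zero.2 hom0) 6
    have h2 : (-omE) ^ 6 = 1 := by
      have : (-omE) ^ 6 = (omE ^ 3) ^ 2 := by ring
      rw [this, hom3, one_pow]
    rw [h2, hv1] at h1
    push_cast at h1
    omega
  have hP1 : Irreducible (main_P (vq omE) (vp omE) 1) :=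
    hIrr E v (vp omE) (vq omE) 1 hvmul hp0 hq0 one_ne_zero hvp hvq hv1
  have hP2 : Irreducible (main_P (vq omE) (vp omE) (-omE)) :=
    hIrr E v (vp omE) (vq omE) (-omE) hvmul hp0 hq0 (neg_ne_zero.2 hom0) hvp hvq hvc
  have hP1e : (main_P (vq omE) (vp omE) 1).eval₂ ι s = vq w * s ^ 3 - vp w := by
    rw [main_P_eval, hιvq, hιvp, map_one, one_mul]
  have hP2e : (main_P (vq omE) (vp omE) (-omE)).eval₂ ι s = vq w * s ^ 3 + w * vp w := by
    rw [main_P_eval, hιvq, hιvp, map_neg, hιom]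
    ring
  have hP1d := main_P_deg (vq omE) (vp omE) 1 hq0
  have hP2d := main_P_deg (vq omE) (vp omE) (-omE) hq0
  have hvneg : ∀ a : E, a ≠ 0 → v (-a) = v a := by
    intro a ha
    have h1 := main_v_pow v hvmul (-1) (neg_ne_zero.2 one_ne_zero) 2
    rw [neg_one_sq, hv1] at h1
    have h2 := hvmul (-1) a (neg_ne_zero.2 one_ne_zero) ha
    rw [neg_one_mul] at h2
    push_cast at h1
    omega
  have hP1v : ∀ g, Associated g (main_P (vq omE) (vp omE) 1) →
      3 * v (g.coeff 0) = 3 * v g.leadingCoeff + g.natDegree := by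
    intro g hg
    have h0 : -(1 * vp omE) ≠ 0 := by
      rw [one_mul]
      exact neg_ne_zero.2 hp0
    refine main_assoc v hvmul g _ hg ?_ ?_
    · rw [hP1d.2.2]
      exact h0
    · rw [hP1d.2.2, hP1d.2.1, hP1d.1, one_mul, hvneg _ hp0, hvp, hvq]
      norm_num
  have hP2v : ∀ g, Associated g (main_P (vq omE) (vp omE) (-omE)) →
      3 * v (g.coeff 0) = 3 * v g.leadingCoeff + g.natDegree := by
    intro g hg
    have h0 : -omE * vp omE ≠ 0 := mul_ne_zero (neg_ne_zero.2 hom0) hp0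
    refine main_assoc v hvmul g _ hg ?_ ?_
    · rw [hP2d.2.2]
      exact neg_ne_zero.2 h0
    · rw [hP2d.2.2, hP2d.2.1, hP2d.1, hvneg _ h0, hvmul _ _ (neg_ne_zero.2 hom0) hp0, hvc, hvp,
        hvq]
      norm_num
  -- `μ` divides neither of the two cubics
  have hμP : ∀ P : Polynomial E, Irreducible P → P.natDegree = 3 → P.eval₂ ι s ≠ 0 := by
    intro P hP hP3 h0
    have h1 : P.eval₂ τE θ = 0 := (key V0 hV0 P).1 (by rw [h0]; exact nu_zero V0)
    have h2 : μ ∣ P := cop_field τE θ μ P hμ hμθ h1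
    have h3 : Associated μ P := (hμ.dvd_irreducible_iff_associated hP).1 h2
    have h4 := natDegree_le_of_dvd h3.symm.dvd hμ.ne_zero
    omega
  -- not both algebraic
  have hnalg : ¬ ((∃ P : Polynomial E, P ≠ 0 ∧ P.eval₂ ι s = 0) ∧
      (∃ P : Polynomial E, P ≠ 0 ∧ P.eval₂ ι y = 0)) := by
    rintro ⟨⟨P, hP, hPs⟩, ⟨Q, hQ', hQy⟩⟩
    let _ : Algebra E M := ι.toAlgebra
    have hs : IsAlgebraic E s := ⟨P, hP, hPs⟩
    have hy : IsAlgebraic E y := ⟨Q, hQ', hQy⟩
    have hc : ∀ a : E, IsAlgebraic E (ι a) := fun a => isAlgebraic_algebraMap a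
    have hW : IsAlgebraic E (cW w s y) := by
      unfold cW
      rw [← hιvp, ← hιvq]
      exact (((hc _).add ((hc _).mul (hs.pow 3))).sub (hs.mul hy))
    have hW0 : cW w s y = 0 := by
      by_contra hne
      obtain ⟨R, hR, hRW⟩ := hW.inv
      have h1 := main_alg_mem ι V0 hιV0 _ R hR hRW
      apply nu_one V0
      rw [← inv_mul_cancel₀ hne]
      exact nu_mul V0 h1 hWV0
    have h1 := hBas M _ _ _ w hw hF hD
    rw [hsdef, hydef] at h1
    rcases h1 hW0 with h | h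
    · exact hμP _ hP1 hP1d.1 (by rw [hP1e]; exact h)
    · exact hμP _ hP2 hP2d.1 (by rw [hP2e]; exact h)
  -- the plane curve theorem
  obtain ⟨D, Φ, hΦd, hΦ0, hΦl, hΦg, hΦV⟩ := hGen E M ι s y (vp omE) (vq omE) hp0 hq0 hnode hnalg
  have hιW : ι (vp omE) + ι (vq omE) * s ^ 3 - s * y = cW w s y := by
    unfold cW
    rw [hιvp, hιvq]
  rw [hιW] at hΦg hΦV
  have hΦθ : Φ.eval₂ τE θ = 0 := (key V0 hV0 Φ).1 (hΦV V0 hιV0 hsV0 hyV0 hWV0)
  have hμΦ : μ ∣ Φ := cop_field τE θ μ Φ hμ hμθ hΦθ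
  refine hCnt E v Φ μ hvmul hμ hμ2 hμΦ ?_ ?_ ?_
  · rw [hΦ0]
    exact pow_ne_zero _ hp0
  · intro g hg hgΦ
    obtain ⟨V, hιV, hsV, hyV, hgV, hWV⟩ := hΦg g hg hgΦ
    rcases hdich V hιV with h | h
    · left
      have h1 : g.eval₂ τE θ = 0 := (key V h g).1 hgV
      have h2 : g ∣ μ := cop_field τE θ g μ hg h1 hμθ
      exact (hg.dvd_irreducible_iff_associated hμ).1 h2
    · right
      have h1 := (hAff M V _ _ _ w hw hF (main_w_mem V w hw) (hpt V hιV h 0) (hpt V hιV h 1)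
        (hpt V hιV h 2) hD).2
      rw [hsdef, hydef] at h1
      rcases h1 hsV hyV hWV with h2 | h2
      · rw [← hP1e] at h2
        exact hP1v g ((hg.dvd_irreducible_iff_associated hP1).1
          (cop_val ι V hιV s hsV g _ hg hgV h2))
      · rw [← hP2e] at h2
        exact hP2v g ((hg.dvd_irreducible_iff_associated hP2).1
          (cop_val ι V hιV s hsV g _ hg hgV h2))
  · rw [hΦ0, hΦl, hΦd, main_v_pow v hvmul _ hp0, main_v_pow v hvmul _ hq0, hvp, hvq]
    push_cast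
    ring

end MP9f7b43.O
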