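import Pool.Agent.Lib.MP_9f7b43_nt.O.Defs

/-!
# MP_9f7b43_nt, part O: the statements of the modules

Goal: `OStmt` of `L/Defs.lean`. Module `O/Xyz.lean` contains `theorem tXyz : XyzStmt`, namespace
`MP9f7b43.O`. It may use the other statements only as explicit hypotheses when this is said.

OUTLINE. `M` = algebraic closure of `L`, `r`, `w` in `M` the roots `ρ`, `ω`, `k = S6 ℚ = ℚ(ρ, ω)`.
`u, v, z` in `M` are the coordinates, `X = u + v ω`, `X' = u + v ω²`,
`s = ((3 + 2 ω) X - X' ^ 2) / cD`, `y = s X + X'` (`[1 : s : y]` is the point of the plane which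
corresponds to the Geiser conjugate of the generic point).
A valuation ring `V` of `M` which contains `ℚ` and not all `x i` lies over `O`. At such a `V`:
`e X`, `e X'`, `e ^ 2 z` are units (`UniStmt`), `s, y ∈ V`, `s ≡ - e X' / e X`, `W(s, y) ∈ m_V`
(`LocStmt`). At a `V` which contains all `x i`: if `s, y ∈ V` and `W (s, y) ∈ m_V` then
`ϖ' s ^ 3 ≡ ϖ` or `ϖ' s ^ 3 ≡ - ω ϖ` (`AffStmt`). In both cases the node `y = ∞, s / y = 0` is
not reached. `GenStmt`: there is `Φ` in `k[S]` of degree `3 D`, `Φ(0) = ϖ ^ D`, leading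
coefficient `ϖ' ^ D`, whose irreducible factors are explained by valuation rings. So every
irreducible factor of `Φ` is `ϖ' S ^ 3 - ϖ`, `ϖ' S ^ 3 + ω ϖ` or `μ`, where `μ` is the minimal
polynomial of `θ = - e X' / e X` in the field `S6 (residue field of O)`, of degree at most `2`
over `k` (`DegStmt`); and `μ` occurs. `CntStmt` with the `7`-adic valuation: contradiction.
-/

namespace MP9f7b43.O

open C31 MP9f7b43.L Polynomial

/-! ## A. Plane curves -/

/-- `P` (a polynomial in `Y` over `k[S]`) has total degree equal to its degree in `Y`. -/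
def Wt {k : Type} [Field k] (P : Polynomial (Polynomial k)) : Prop :=
  ∀ j, P.coeff j ≠ 0 → (P.coeff j).natDegree + j ≤ P.natDegree

/-- The node is not reached: no valuation ring `V` of `M` over `k` has `1/y` and `s/y` in its
maximal ideal. -/
def NoNode {k M : Type} [Field k] [Field M] (ι : k →+* M) (s y : M) : Prop :=
  ∀ V : ValuationSubring M, (∀ q, ι q ∈ V) → y ≠ 0 → y⁻¹ ∈ V.nonunits → s * y⁻¹ ∉ V.nonunits

/-- Module Hom. PROOF. If `y = 0` take `H = Y`. Let `y ≠ 0`, `A = ` the subring of `M` generated by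
`ι k`, `y⁻¹`, `s y⁻¹`; i.e. the range of the evaluation `k[T₀][T₁] → M` (or `MvPolynomial (Fin 2) k`)
at `(y⁻¹, s y⁻¹)`, and `I` the ideal of `A` generated by `y⁻¹` and `s y⁻¹`. If `I ≠ ⊤` then
`Ideal.image_subset_nonunits_valuationSubring` gives a `V` which contradicts `NoNode`. So
`1 = a y⁻¹ + b s y⁻¹` with `a, b ∈ A`, i.e. `1 = ∑ c_{ij} y^{-i} (s y⁻¹)^j` over finitely many
`(i, j) ≠ (0, 0)`. Multiply by `y ^ e` with `e ≥ i + j` for all occurring `(i, j)`:
`y ^ e = ∑ c_{ij} y ^ (e - i - j) s ^ j`. Take `H = Y ^ e - ∑ C (c_{ij} S ^ j) Y ^ (e - i - j)`;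
it is monic of degree `e` (all other exponents are `< e`), and the coefficient of
`Y ^ m`, `m = e - i - j`, is a sum of terms `c_{ij} S ^ j` with `j ≤ i + j = e - m`. -/
def HomStmt : Prop :=
  ∀ (k M : Type) [Field k] [Field M] (ι : k →+* M) (s y : M), NoNode ι s y →
    ∃ H : Polynomial (Polynomial k), H.Monic ∧ Wt H ∧ H.eval₂ (eval₂RingHom ι s) y = 0

/-- Module Trs: `s` is transcendental over `k`. PROOF. Suppose `s` is algebraic. By hypothesis `y`
is not, so `y ≠ 0` and `t = y⁻¹` is not algebraic (`IsAlgebraic.inv`, with the algebra structure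
`ι.toAlgebra`, or reverse the polynomial). In the subring `A = ι k [t]` (range of the evaluation
`k[T] → M`, `T ↦ t`) the ideal generated by `t` is proper: `1 = t p(t)` would be an algebraic
equation of `t` with constant term `-1`. So by `Ideal.image_subset_nonunits_valuationSubring` there
is `V` containing `ι k` with `t ∈ m_V`. `s` is integral over `k` so `s ∈ V` (`V` is integrally
closed; or: if `s ∉ V` then `s⁻¹ ∈ m_V`, and dividing the monic equation of degree `n` by `s ^ n`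
gives `1 ∈ m_V`). So `s y⁻¹ ∈ m_V`, contradiction to `NoNode`. -/
def TrsStmt : Prop :=
  ∀ (k M : Type) [Field k] [Field M] (ι : k →+* M) (s y : M), NoNode ι s y →
    ¬ ((∃ P : Polynomial k, P ≠ 0 ∧ P.eval₂ ι s = 0) ∧
      (∃ P : Polynomial k, P ≠ 0 ∧ P.eval₂ ι y = 0)) →
    ∀ P : Polynomial k, P.eval₂ ι s = 0 → P = 0

/-- Module Wtd: factors of polynomials with the property `Wt`. PROOF. Let
`θ : k[S][Y] → k[T][Z]` be the ring hom `S ↦ T Z`, `Y ↦ Z`
(`eval₂RingHom (eval₂RingHom (C.comp C) (C X * X)) X`). The coefficient of `T ^ i Z ^ m` in `θ P`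
is the coefficient of `S ^ i Y ^ (m - i)` in `P` if `i ≤ m` and `0` otherwise (check it on
monomials `C (C a * X ^ i) * X ^ j`, additivity). Hence `natDegree (θ P) ≥ i + j` whenever
the coefficient of `S ^ i Y ^ j` in `P` is not zero, and `natDegree (θ P) ≤ n` if all
`S ^ i Y ^ j` in `P` have `i + j ≤ n`. In particular `natDegree (θ P) ≥ natDegree P` for monic
`P`, and `Wt P` (for `P` monic) is equivalent to `natDegree (θ P) = natDegree P`. Since
`natDegree (θ (G Q)) = natDegree (θ G) + natDegree (θ Q)` and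
`natDegree (G Q) = natDegree G + natDegree Q`, the equality for `G Q` forces the equality for
`G` and `Q`. -/
def WtdStmt : Prop :=
  ∀ (k : Type) [Field k] (G Q : Polynomial (Polynomial k)), G.Monic → Q.Monic → Wt (G * Q) → Wt G

/-- `Φ = S ^ D G(S, (α + β S ^ 3) / S)`, `D` the degree of `G` in `Y`. -/
noncomputable def Phi {k : Type} [Field k] (G : Polynomial (Polynomial k)) (α β : k) :
    Polynomial k :=
  ∑ j ∈ Finset.range (G.natDegree + 1),
    G.coeff j * X ^ (G.natDegree - j) * (C α + C β * X ^ 3) ^ j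

/-- Module Pdg. PROOF. The term `j = D` is `(C α + C β X ^ 3) ^ D`: degree `3 D`, leading
coefficient `β ^ D`, constant coefficient `α ^ D`. A term with `j < D` has a factor `X`, and
its degree is at most `(D - j) + (D - j) + 3 j = 2 D + j < 3 D`. -/
def PdgStmt : Prop :=
  ∀ (k : Type) [Field k] (G : Polynomial (Polynomial k)) (α β : k), β ≠ 0 → G.Monic → Wt G →
    (Phi G α β).natDegree = 3 * G.natDegree ∧ (Phi G α β).coeff 0 = α ^ G.natDegree ∧
      (Phi G α β).leadingCoeff = β ^ G.natDegree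

/-- Module Pev: values of `Φ`. PROOF. First part: modulo `m_V`, `α + β s ^ 3 ≡ s y`, so
`Φ(s) ≡ ∑ G_j(s) s ^ (D - j) (s y) ^ j = s ^ D G(s, y) = 0` (all elements are in `V`).
Second part, in a field `κ`: `Φ(σ) = σ ^ D G(σ, (α + β σ ^ 3) / σ)`. -/
def PevStmt : Prop :=
  (∀ (k M : Type) [Field k] [Field M] (ι : k →+* M) (s y : M) (G : Polynomial (Polynomial k))
    (α β : k), G.eval₂ (eval₂RingHom ι s) y = 0 → ∀ V : ValuationSubring M, (∀ q, ι q ∈ V) →
      s ∈ V → y ∈ V → ι α + ι β * s ^ 3 - s * y ∈ V.nonunits →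
      (Phi G α β).eval₂ ι s ∈ V.nonunits) ∧
  (∀ (k κ : Type) [Field k] [Field κ] (ι : k →+* κ) (σ : κ) (G : Polynomial (Polynomial k))
    (α β : k), σ ≠ 0 → (Phi G α β).eval₂ ι σ = σ ^ G.natDegree *
      G.eval₂ (eval₂RingHom ι σ) ((ι α + ι β * σ ^ 3) / σ))

/-- The plane curve theorem. -/
def GenStmt : Prop :=
  ∀ (k M : Type) [Field k] [Field M] (ι : k →+* M) (s y : M) (α β : k), α ≠ 0 → β ≠ 0 →
    NoNode ι s y →
    ¬ ((∃ P : Polynomial k, P ≠ 0 ∧ P.eval₂ ι s = 0) ∧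
      (∃ P : Polynomial k, P ≠ 0 ∧ P.eval₂ ι y = 0)) →
    ∃ (D : ℕ) (Φ : Polynomial k), Φ.natDegree = 3 * D ∧ Φ.coeff 0 = α ^ D ∧
      Φ.leadingCoeff = β ^ D ∧
      (∀ g : Polynomial k, Irreducible g → g ∣ Φ → ∃ V : ValuationSubring M, (∀ q, ι q ∈ V) ∧
        s ∈ V ∧ y ∈ V ∧ g.eval₂ ι s ∈ V.nonunits ∧ ι α + ι β * s ^ 3 - s * y ∈ V.nonunits) ∧
      (∀ V : ValuationSubring M, (∀ q, ι q ∈ V) → s ∈ V → y ∈ V →
        ι α + ι β * s ^ 3 - s * y ∈ V.nonunits → Φ.eval₂ ι s ∈ V.nonunits)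

/-- Module Gen (helper29). PROOF. `s` is transcendental (`TrsStmt`); make `M` an algebra over
`k[S]` by `S ↦ s`. By `HomStmt` `y` is integral over `k[S]`; `G = minpoly k[S] y` is monic and
divides every `P` with `P(s, y) = 0` (`minpoly.isIntegrallyClosed_dvd`). `G ∣ H`, so `Wt G` by
`WtdStmt`. `Φ = Phi G α β`: `PdgStmt`, `PevStmt`. Let `g ∣ Φ` be irreducible; `g(0) ≠ 0`. If the
ideal of `k[s, y]` generated by `g(s)` and `α + β s ^ 3 - s y` is `⊤` then
`1 - A g - B (α + β S ^ 3 - S Y) = G Q` in `k[S][Y]`. In the field `κ = k[S]/(g)` with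
`σ = S mod g ≠ 0` and `Y ↦ (α + β σ ^ 3) / σ` this gives `1 = 0`. So the ideal is proper and
`Ideal.image_subset_nonunits_valuationSubring` gives `V`. -/
def GenMod : Prop := HomStmt → TrsStmt → WtdStmt → PdgStmt → PevStmt → GenStmt

/-! ## B. The field `S6 k` -/

/-- Module Fld: `S6 k` is a field. PROOF. Let `a` be a real root of `X ^ 3 - X - 1`
(intermediate value theorem on `[1, 2]`), `w` in `ℂ` a primitive cube root of unity
(`w = (-1 + √3 i) / 2`, `w ^ 2 + w + 1 = 0`, imaginary part not `0`),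
`Ψ = S6.ev (Complex.ofRealHom.comp j) a w : S6 k →+* ℂ`. `Ψ` is injective: if `Ψ ξ = 0`, the
imaginary part gives `∑ j (ξ_i.im) a ^ i = 0` and then `∑ j (ξ_i.re) a ^ i = 0`. Now
`f = X ^ 3 - X - 1` over `k` has no root in `k` and degree `3`, so it is irreducible; a polynomial
`P` over `k` of degree `≤ 2` with `P(a) = 0` is `0` (otherwise `P` and `f` are coprime, Bezout at
`a` gives `0 = 1`). So `S6 k` is a domain. Every element is integral over `k` (`S6 k` as an
algebra by `(Cub.C.comp Eis.C)`; `ρ` and `ω` are integral, `Cub.eq_sum`, `Eis.eq_sum`), so it is a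
field by `isField_of_isIntegral_of_isField'`. -/
def FldStmt : Prop :=
  ∀ (k : Type) [Field k] (j : k →+* ℝ), (∀ x : k, x ^ 3 ≠ x + 1) → IsField (S6 k)

/-- Module Res: the residue field of `O`. PROOF. Take `k = IsLocalRing.ResidueField O` (or the
quotient of `O` by the maximal ideal), `π` the residue map, `j` induced by `res`. `k` is a
`ℚ`-algebra (`DivisionRing.toRatAlgebra`); `j` is `ℚ`-linear and injective with values in `F`, so
`Module.finrank ℚ k ≤ 2` and finite (`FiniteDimensional.of_injective`,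
`LinearMap.finrank_le_finrank_of_injective`). A root `x` of `x ^ 3 = x + 1` in `k` gives a root
`b = j x` in `F`; `X ^ 3 - X - 1` is irreducible over `ℚ` (no rational root, degree `3`), so
`minpoly ℚ b` has degree `3`, but it is at most `Module.finrank ℚ F ≤ 2`
(`minpoly.natDegree_le`). -/
def ResStmt : Prop :=
  ∀ (L : Type) [Field L] [Algebra ℚ L] (O : ValuationSubring L)
    (_ : ∀ q : ℚ, algebraMap ℚ L q ∈ O)
    (F : IntermediateField ℚ ℝ) (_ : FiniteDimensional ℚ F) (_ : Module.finrank ℚ F ≤ 2)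
    (res : O →+* ℝ) (_ : ∀ y : O, res y ∈ F) (_ : ∀ y : O, res y = 0 ↔ (y : L) ∈ O.nonunits),
    ∃ (k : Type) (_ : Field k) (_ : Algebra ℚ k) (π : O →+* k) (j : k →+* ℝ),
      Function.Surjective π ∧ (∀ y : O, π y = 0 ↔ (y : L) ∈ O.nonunits) ∧
      FiniteDimensional ℚ k ∧ Module.finrank ℚ k ≤ 2 ∧ ∀ x : k, x ^ 3 ≠ x + 1

/-- Module Deg. PROOF. `S6 k` and `S6 ℚ` are fields (hypotheses). Let `b : Fin d → k`, `d ≤ 2`, be a
basis of `k` over `ℚ` (`Module.finBasis`). Write `τ = S6.map (algebraMap ℚ k) : S6 ℚ → S6 k` and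
`c : k → S6 k` for the constants. Every `ξ` in `S6 k` is `∑ i, τ (ξ_i) c (b i)` with
`ξ_i` in `S6 ℚ` (expand the six components in the basis). So `S6 k`, as a vector space over the
field `S6 ℚ` (algebra structure `τ.toAlgebra`, field structure `IsField.toField`; or work with a
field `E` isomorphic to `S6 ℚ`), is spanned by `d ≤ 2` elements, so `finrank ≤ 2`, and
`minpoly` of `θ` has degree `≤ 2` (`minpoly.natDegree_le`) and is irreducible. (To avoid the two
ring structures on `S6 ℚ` the statement uses a field `E` with a ring isomorphism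
`ε : E ≃+* S6 ℚ`, and a field `K` with `S6 k ≃+* K`.) -/
def DegStmt : Prop :=
  ∀ (k : Type) [Field k] [Algebra ℚ k], FiniteDimensional ℚ k → Module.finrank ℚ k ≤ 2 →
    ∀ (E : Type) [Field E] (ε : E ≃+* S6 ℚ) (K : Type) [Field K] (κ : S6 k ≃+* K) (θ : K),
      ∃ μ : Polynomial E, Irreducible μ ∧ μ.natDegree ≤ 2 ∧
        μ.eval₂ ((κ : S6 k →+* K).comp ((S6.map (algebraMap ℚ k)).comp (ε : E →+* S6 ℚ))) θ = 0

/-- The situation of a valuation ring `V` of `M` over `O`. -/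
structure Over {L M : Type} [Field L] [Field M] (i : L →+* M) (O : ValuationSubring L)
    (V : ValuationSubring M) : Prop where
  iff : ∀ y : L, i y ∈ V ↔ y ∈ O

/-- Module Uni: the units of `S6 O` at a valuation ring `V` over `O`. PROOF. `r ∈ V`: if not,
`r⁻¹ ∈ m_V`, and `1 = r⁻² + r⁻³ ∈ m_V`. In the same way `w ∈ V`. So `ev ξ ∈ V`. For `y` in `O`:
`i y ∈ m_V` iff `y ∈ m_O` (`y = 0` or `i y⁻¹ ∉ V` iff `y⁻¹ ∉ O`). If `S6.map π ξ = 0` all six
components of `ξ` are in `m_O`, so `ev ξ ∈ m_V`. Otherwise there is `η'` in `S6 k` with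
`S6.map π ξ * η' = 1` (`S6 k` is a field); lift the components of `η'` to get `η` in `S6 O`
(`π` surjective); `S6.map π (ξ η - 1) = 0`, so `ev ξ * ev η - 1 ∈ m_V`, so `ev ξ` is not in
`m_V`. Here `ev = S6.ev (i.comp O.subtype) r w hr hw`. -/
def UniStmt : Prop :=
  ∀ (L M k : Type) [Field L] [Field M] [Field k] (i : L →+* M) (O : ValuationSubring L)
    (V : ValuationSubring M) (_ : Over i O V) (π : O →+* k) (_ : Function.Surjective π)
    (_ : ∀ y : O, π y = 0 ↔ (y : L) ∈ O.nonunits) (_ : IsField (S6 k))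
    (r w : M) (hr : r ^ 3 = r + 1) (hw : w ^ 2 + w + 1 = 0) (ξ : S6 O),
    S6.ev (i.comp O.subtype) r w hr hw ξ ∈ V ∧
      (S6.ev (i.comp O.subtype) r w hr hw ξ ∈ V.nonunits ↔ S6.map π ξ = 0)

/-- Module Tfr: the residue of `s` at a valuation ring over `O` does not depend on the ring.
PROOF. Lift `θ` to `θ'` in `S6 O` (`π` surjective). `ev ξ₁ * (s - ev θ') =
(s ev ξ₁ + ev ξ₂) - ev (ξ₂ + ξ₁ θ') ∈ m_V` by `UniStmt`, and `ev ξ₁` is a unit of `V`, so
`s ≡ ev θ'` modulo `m_V`. Let `λ : S6 ℚ →+* S6 O` be `S6.map` of `ℚ → O` (codRestrict of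
`algebraMap ℚ L`). Then `P(s) ≡ P(ev θ') = ev (P^λ (θ'))` modulo `m_V` (all coefficients are in
`V`), where `P^λ (θ') = P.eval₂ λ θ'`. By `UniStmt` `ev (P^λ (θ')) ∈ m_V` iff
`S6.map π (P.eval₂ λ θ') = P.eval₂ (S6.map (algebraMap ℚ k)) θ = 0` (ring homs from `ℚ` are
unique: `π.comp (ℚ → O) = algebraMap ℚ k`). -/
def TfrStmt : Prop :=
  ∀ (L M k : Type) [Field L] [Algebra ℚ L] [Field M] [Field k] [Algebra ℚ k] (i : L →+* M)
    (O : ValuationSubring L) (_ : ∀ q : ℚ, algebraMap ℚ L q ∈ O)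
    (V : ValuationSubring M) (_ : Over i O V) (π : O →+* k) (_ : Function.Surjective π)
    (_ : ∀ y : O, π y = 0 ↔ (y : L) ∈ O.nonunits) (_ : IsField (S6 k))
    (r w : M) (hr : r ^ 3 = r + 1) (hw : w ^ 2 + w + 1 = 0) (ξ₁ ξ₂ : S6 O) (s : M) (θ : S6 k)
    (_ : s ∈ V) (_ : S6.map π ξ₁ ≠ 0)
    (_ : s * S6.ev (i.comp O.subtype) r w hr hw ξ₁ + S6.ev (i.comp O.subtype) r w hr hw ξ₂ ∈
      V.nonunits) (_ : θ * S6.map π ξ₁ + S6.map π ξ₂ = 0) (P : Polynomial (S6 ℚ)),
    P.eval₂ (S6.ev (i.comp (algebraMap ℚ L)) r w hr hw) s ∈ V.nonunits ↔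
      P.eval₂ (S6.map (algebraMap ℚ k)) θ = 0

/-! ## C. The seven-adic valuation and the count -/

/-- Module Pad: the valuation. PROOF. `X ^ 2 + X + 1` has the simple root `2` modulo `7`,
`X ^ 3 - X - 1` has the simple root `5` modulo `7`; by Hensel's lemma (`hensels_lemma`) there are
roots `w7 ≡ 2`, `r7 ≡ 5` in `ℤ_[7]`. `ψ = S6.ev (algebraMap ℚ ℚ_[7]) r7 w7 : S6 ℚ →+* ℚ_[7]`.
Put `v a = Padic.valuation (ψ a)`. `ψ` is injective since `S6 ℚ` is a field (hypothesis), so `v` is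
additive (`Padic.valuation_mul`). `vq w7 = 2 + 3 w7 ≡ 1` is a unit, `vp w7 * vq w7 = 7`, so
`v (vp ω) = 1`, `v (vq ω) = 0`. -/
def PadStmt : Prop :=
  IsField (S6 ℚ) → ∃ v : S6 ℚ → ℤ, (∀ a b, a ≠ 0 → b ≠ 0 → v (a * b) = v a + v b) ∧
    v (vp (S6.om ℚ)) = 1 ∧ v (vq (S6.om ℚ)) = 0

/-- Module Irr: irreducibility. PROOF. `v` of a product is the sum (nonzero elements), so
`v 1 = 0`, `v (-1) = 0`, `v c = 0` if `c ^ 3 = 1`. A root `x` of `q X ^ 3 - c p` would give
`3 v x + v q = v c + v p`, i.e. `3 v x = 1`. Degree `3` without root over a field: irreducible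
(`Polynomial.irreducible_of_degree_le_three_of_not_isRoot`). -/
def IrrStmt : Prop :=
  ∀ (E : Type) [Field E] (v : E → ℤ) (p q c : E), (∀ a b, a ≠ 0 → b ≠ 0 → v (a * b) = v a + v b) →
    p ≠ 0 → q ≠ 0 → c ≠ 0 → v p = 1 → v q = 0 → v c = 0 →
    Irreducible (C q * X ^ 3 - C (c * p) : Polynomial E)

/-- Module Cnt: the count. PROOF. For a nonzero polynomial `P` with `P(0) ≠ 0` put
`δ(P) = 3 v(P(0)) - 3 v(lc P) - natDegree P`. It is additive for products, `0` for constants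
(nonzero), so it only depends on the class up to units. `δ(μ) ≠ 0` because
`natDegree μ ∈ {1, 2}` is not divisible by `3`. By induction on the number of irreducible factors,
every divisor `P` of `Φ` has `δ(P) = n δ(μ)` with `n : ℕ`, and `n ≥ 1` if `μ ∣ P`. So
`δ(Φ) ≠ 0`. -/
def CntStmt : Prop :=
  ∀ (E : Type) [Field E] (v : E → ℤ) (Φ μ : Polynomial E),
    (∀ a b, a ≠ 0 → b ≠ 0 → v (a * b) = v a + v b) → Irreducible μ → μ.natDegree ≤ 2 → μ ∣ Φ →
    Φ.coeff 0 ≠ 0 → (∀ g : Polynomial E, Irreducible g → g ∣ Φ → Associated g μ ∨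
      3 * v (g.coeff 0) = 3 * v g.leadingCoeff + g.natDegree) →
    3 * v (Φ.coeff 0) ≠ 3 * v Φ.leadingCoeff + Φ.natDegree

/-! ## D. Explicit identities and local analysis -/

/-- Module Ide: the explicit identities. PROOF. `cs` and `cy` by definition; `field_simp`, then
`linear_combination` with `w ^ 2 + w + 1 = 0` and the equation. With `ζ = cZ + 7 (3 - 2 w)`,
`ζ' = cZ + 7 (5 + 2 w)`:
first: `cy X' = (3 + 2 w) X + w ζ cs` is `cs * cD = (3 + 2 w) X - X' ^ 2`.
second: `cy X = (1 - 2 w) X' cs + w ^ 2 ζ'`: multiply by `cD`; the difference is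
`F(u, v, cZ, 1) = 0` (Geiser involution).
third (consequence of the first two and of `cy = cs X + X'`): `cW X = w ^ 2 y ^ 2 + vq s ^ 2 y +
14 (1 + 2 w) s` (it is `w * (w * first - s * second)` after substituting `X' = y - s X`).
fourth: `cZ * z = 4 u ^ 3 - 15 u ^ 2 v + 3 u v ^ 2 + 4 v ^ 3 + 931` from the equation. -/
def IdeStmt : Prop :=
  ∀ (M : Type) [Field M] (u v z w : M), w ^ 2 + w + 1 = 0 → Faff u v z = 0 → cD u v z w ≠ 0 →
    cy u v z w * cX' u v w = (3 + 2 * w) * cX u v w + w * (cZ u v z + 7 * (3 - 2 * w)) * cs u v z w ∧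
    cy u v z w * cX u v w = (1 - 2 * w) * cX' u v w * cs u v z w +
      w ^ 2 * (cZ u v z + 7 * (5 + 2 * w)) ∧
    cW w (cs u v z w) (cy u v z w) * cX u v w = w ^ 2 * cy u v z w ^ 2 +
      vq w * cs u v z w ^ 2 * cy u v z w + 14 * (1 + 2 * w) * cs u v z w ∧
    cZ u v z * z = 4 * u ^ 3 - 15 * u ^ 2 * v + 3 * u * v ^ 2 + 4 * v ^ 3 + 931

/-- Module Loc: local analysis at a valuation ring where the coordinates have poles. PROOF
(`m = V.nonunits`, integers are in `V`). `e cZ ∈ V`: `(e cZ)(e ^ 2 z) = e ^ 3 (cubic + 931) ∈ V` and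
`e ^ 2 z` is a unit. `e ^ 2 cD = (e X)(e X') - e w (e cZ + 7 (3 - 2 w) e)` is a unit plus an
element of `m`, so a unit; in particular `cD ≠ 0`. `e ^ 2 cD * cs = e (3 + 2 w)(e X) - (e X') ^ 2 ∈ V`,
so `cs ∈ V`. First identity times `e`: `cy (e X') = (3 + 2 w)(e X) + w (e cZ + 7 e (3 - 2 w)) cs ∈ V`
and `e X'` is a unit, so `cy ∈ V`. `cs (e X) + e X' = e cy ∈ m`. Third identity times `e`:
`cW (e X) = e (...) ∈ m` and `e X` is a unit, so `cW ∈ m`. -/
def LocStmt : Prop :=
  ∀ (M : Type) [Field M] (V : ValuationSubring M) (u v z w e : M), w ^ 2 + w + 1 = 0 →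
    Faff u v z = 0 → w ∈ V → e ≠ 0 → e ∈ V.nonunits → e * u ∈ V → e * v ∈ V → e ^ 2 * z ∈ V →
    e ^ 2 * z ∉ V.nonunits → e * cX u v w ∉ V.nonunits → e * cX' u v w ∉ V.nonunits →
    cD u v z w ≠ 0 ∧ cs u v z w ∈ V ∧ cy u v z w ∈ V ∧
      cW w (cs u v z w) (cy u v z w) ∈ V.nonunits ∧
      cs u v z w * (e * cX u v w) + e * cX' u v w ∈ V.nonunits

/-- Module Aff: local analysis at a valuation ring which contains the coordinates. PROOF. First
part: `cy = cs X + X'`, divide by `cy`: `1 = (cs cy⁻¹) X + cy⁻¹ X' ∈ m`, contradiction. Second part: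
by the third identity `c := w ^ 2 y ^ 2 + vq s ^ 2 y + 14 (1 + 2 w) s = cW X ∈ m`, and with
`cW ∈ m` the identity `s ^ 2 c = - w (vq s ^ 3 - vp)(vq s ^ 3 + w vp) + cW * (..)` (replace
`s y = vp + vq s ^ 3 - cW`; the product `(vq s ^ 3 - vp)(vq s ^ 3 + w vp)` is in `m`). -/
def AffStmt : Prop :=
  ∀ (M : Type) [Field M] (V : ValuationSubring M) (u v z w : M), w ^ 2 + w + 1 = 0 →
    Faff u v z = 0 → w ∈ V → u ∈ V → v ∈ V → z ∈ V → cD u v z w ≠ 0 →
    (cy u v z w ≠ 0 → (cy u v z w)⁻¹ ∈ V.nonunits → cs u v z w * (cy u v z w)⁻¹ ∉ V.nonunits) ∧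
    (cs u v z w ∈ V → cy u v z w ∈ V → cW w (cs u v z w) (cy u v z w) ∈ V.nonunits →
      vq w * cs u v z w ^ 3 - vp w ∈ V.nonunits ∨ vq w * cs u v z w ^ 3 + w * vp w ∈ V.nonunits)

/-- Module Bas: the base points in `M`. PROOF. `cW = 0` gives `c = 0` by the third identity of
`IdeStmt`, then `(vq s ^ 3 - vp)(vq s ^ 3 + w vp) = 0` as in `AffStmt`. -/
def BasStmt : Prop :=
  ∀ (M : Type) [Field M] (u v z w : M), w ^ 2 + w + 1 = 0 → Faff u v z = 0 → cD u v z w ≠ 0 →
    cW w (cs u v z w) (cy u v z w) = 0 →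
      vq w * cs u v z w ^ 3 - vp w = 0 ∨ vq w * cs u v z w ^ 3 + w * vp w = 0

/-- Module Abv: there is a valuation ring over `O`. PROOF. The image `A` of `O` in `M` is a local
ring (`O ≃ A`), `Ideal.image_subset_nonunits_valuationSubring` for the image of the maximal ideal
(or `IsLocalRing.exists_factor_valuationRing (i.comp O.subtype)`) gives `V` with `i O ⊆ V` and
`i m_O ⊆ m_V`. If `i y ∈ V` and `y ∉ O` then `y⁻¹ ∈ m_O`, so `i y⁻¹ ∈ m_V`, contradiction. -/
def AbvStmt : Prop :=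
  ∀ (L M : Type) [Field L] [Field M] (i : L →+* M) (O : ValuationSubring L),
    ∃ V : ValuationSubring M, Over i O V

/-- Module Pts (helper29): the coordinates at `t = ρ`. The generic point in `M`: `u = gen x 0`
evaluated at `r`, etc.; for `e x ∈ O` it is `S6.ev` of an element of `S6 O`. -/
noncomputable def pt {L M : Type} [Field L] [Field M] (i : L →+* M) (r : M) (x : I9 → L)
    (j : Fin 3) : M := i (x (j, 0)) + i (x (j, 1)) * r + i (x (j, 2)) * r ^ 2

/-- Module Pnt: the equation at `r`. PROOF. Evaluate the divisibility `OnSurf x` at `r`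
(`Polynomial.eval₂ i r`, a ring hom); `X ^ 3 - X - 1` goes to `0`, `gen x j` to `pt i r x j`. -/
def PntStmt : Prop :=
  ∀ (L M : Type) [Field L] [Field M] (i : L →+* M) (r : M) (x : I9 → L), r ^ 3 = r + 1 →
    OnSurf x → Faff (pt i r x 0) (pt i r x 1) (pt i r x 2) = 0

end MP9f7b43.O
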